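import Pool.Agent.H47.RU.Targets

/-!
# The cross term of two dilations
-/

set_option autoImplicit false

open Complex MeasureTheory Set

namespace Pool.Agent.H39.RU

open Pool.Agent.H23.GLH (PrimChar)
open Pool.Agent.H28.MZ Pool.Agent.H47.RU

theorem Ga_scale (c H D u : ℝ) (hc : 0 < c) (f : ℝ → ℂ) :
    Ga (c * H) (c * D) (c * u) f = Ga H D u (fun t => f (c * t)) := by
  unfold Ga
  have h1 : ∫ t in (u - D)..(u + D), ((Real.exp (-((t - u) / H) ^ 2) : ℝ) : ℂ) * f (c * t)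
      = ∫ t in (u - D)..(u + D),
        (fun s : ℝ => ((Real.exp (-((s - c * u) / (c * H)) ^ 2) : ℝ) : ℂ) * f s) (c * t) := by
    congr 1
    ext t
    simp only
    have : (c * t - c * u) / (c * H) = (t - u) / H := by
      rw [← mul_sub, mul_div_mul_left _ _ hc.ne']
    rw [this]
  rw [h1, intervalIntegral.integral_comp_mul_left
    (fun s : ℝ => ((Real.exp (-((s - c * u) / (c * H)) ^ 2) : ℝ) : ℂ) * f s) hc.ne']
  rw [show c * (u - D) = c * u - c * D by ring, show c * (u + D) = c * u + c * D by ring]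
  have h2 : (1 / (Real.sqrt Real.pi * H) : ℝ) * c⁻¹ = 1 / (Real.sqrt Real.pi * (c * H)) := by
    rw [one_div, one_div, mul_inv, mul_inv, mul_inv]
    ring
  rw [← h2, Complex.real_smul, ← mul_assoc, ← Complex.ofReal_mul]

theorem Ga_conj (H D u : ℝ) (f : ℝ → ℂ) :
    Ga H D u (fun t => (starRingEnd ℂ) (f t)) = (starRingEnd ℂ) (Ga H D u f) := by
  unfold Ga
  rw [map_mul, Complex.conj_ofReal]
  congr 1
  simp only [intervalIntegral, map_sub, ← integral_conj, map_mul, Complex.conj_ofReal]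

theorem Ga_swap (H D u : ℝ) (f g : ℝ → ℂ) (z : ℝ)
    (h : ‖Ga H D u (fun t => f t * (starRingEnd ℂ) (g t)) - 1‖ ≤ z) :
    ‖Ga H D u (fun t => g t * (starRingEnd ℂ) (f t)) - 1‖ ≤ z := by
  have h1 : (fun t => g t * (starRingEnd ℂ) (f t)) =
      fun t => (starRingEnd ℂ) ((fun t => f t * (starRingEnd ℂ) (g t)) t) := by
    ext t
    simp [mul_comm]
  rw [h1, Ga_conj]
  have h2 : (starRingEnd ℂ) (Ga H D u (fun t => f t * (starRingEnd ℂ) (g t))) - 1 =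
      (starRingEnd ℂ) (Ga H D u (fun t => f t * (starRingEnd ℂ) (g t)) - 1) := by
    simp
  rw [h2, RCLike.norm_conj]
  exact h

theorem gl_scale (ψ : PrimChar) (b : ℕ → ℝ) (Y : ℕ) (c r η t : ℝ) (hc : 0 < c) :
    gl ψ b Y (r / c) (c * η) (c * t) = gl ψ b Y r η t := by
  unfold gl
  have h1 : r / c * (c * η) = r * η := by field_simp
  have h2 : r / c * (c * t) = r * t := by field_simp
  rw [h1, h2]

/-- monotone properties over a finite set -/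
theorem fin_mono {α : Type*} (S : Set α) (hS : S.Finite) (P : α → ℝ → ℝ → ℕ → Prop)
    (hm : ∀ a k k' t t' h h', P a k t h → k' ≤ k → t ≤ t' → h ≤ h' → P a k' t' h')
    (hP : ∀ a, ∃ (k t : ℝ) (h : ℕ), 0 < k ∧ P a k t h) :
    ∃ (k t : ℝ) (h : ℕ), 0 < k ∧ ∀ a ∈ S, P a k t h := by
  induction S, hS using Set.Finite.induction_on with
  | empty => exact ⟨1, 0, 0, one_pos, by simp⟩
  | @insert a s ha hs ih =>
    obtain ⟨k, t, h, hk, hall⟩ := ih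
    obtain ⟨k', t', h', hk', hP'⟩ := hP a
    refine ⟨min k k', max t t', max h h', lt_min hk hk', ?_⟩
    intro x hx
    rcases Set.mem_insert_iff.1 hx with rfl | hx
    · exact hm _ _ _ _ _ _ _ hP' (min_le_right _ _) (le_max_right _ _) (le_max_right _ _)
    · exact hm _ _ _ _ _ _ _ (hall x hx) (min_le_left _ _) (le_max_left _ _) (le_max_left _ _)

theorem ee_pos (ε₀ : ℝ) (h : 0 < ε₀) : 0 < ee ε₀ := by
  unfold ee
  exact lt_min (by norm_num) (by positivity)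

theorem ee_le (ε₀ : ℝ) : ee ε₀ ≤ 1 / 100 := min_le_left _ _

theorem ee_le' (ε₀ : ℝ) : ee ε₀ ≤ ε₀ / 32 := min_le_right _ _

/-- the closeness to the Moebius function -/
def Cl (ψ : PrimChar) (b : ℕ → ℝ) (κ' : ℝ) (H₀ : ℕ) : Prop :=
  ∀ h : ℕ, 1 ≤ h → h ≤ H₀ → Nat.Coprime h ψ.q →
    |b h - (ArithmeticFunction.moebius h : ℝ)| ≤ κ'

theorem Cl.mono {ψ : PrimChar} {b : ℕ → ℝ} {κ κ' : ℝ} {H₀ H₁ : ℕ} (h : Cl ψ b κ' H₁)
    (h1 : κ' ≤ κ) (h2 : H₀ ≤ H₁) : Cl ψ b κ H₀ := fun n a b c =>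
  (h n a (b.trans h2) c).trans h1

/-- the statement for an ordered pair of dilations -/
def QQ (A ε₀ R κ : ℝ) (ψ₁ ψ₂ : PrimChar) (κ' T₀ : ℝ) (H₀ : ℕ) : Prop :=
  ∀ (T r₁ r₂ : ℝ) (b₁ b₂ : ℕ → ℝ), T₀ ≤ T →
      1 / A ≤ r₁ → r₁ ≤ A → 1 / A ≤ r₂ → r₂ ≤ A →
      T ^ (-1 + ε₀) ≤ r₂ - r₁ → Mol ψ₁.q b₁ → Mol ψ₂.q b₂ →
      Cl ψ₁ b₁ κ' H₀ → Cl ψ₂ b₂ κ' H₀ →
      ∃ H : ℝ, 0 < H ∧ H ≤ T ^ (1 - tt ε₀) ∧ ∀ u : ℝ, T ≤ u → u ≤ 2 * T →
        ‖Ga H (T / 4) u (fun t : ℝ => gl ψ₁ b₁ ⌊T ^ tt ε₀⌋₊ r₁ (R / Real.log T) t *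
            (starRingEnd ℂ) (gl ψ₂ b₂ ⌊T ^ tt ε₀⌋₊ r₂ (R / Real.log T) t)) - 1‖ ≤ κ

/-- a threshold for powers -/
theorem ex_rpow (a c : ℝ) (ha : 0 < a) : ∃ T₀ : ℝ, 1 ≤ T₀ ∧ ∀ T : ℝ, T₀ ≤ T → c ≤ T ^ a := by
  have h := tendsto_rpow_atTop ha
  obtain ⟨T₀, hT₀⟩ := Filter.eventually_atTop.1 (h.eventually_ge_atTop c)
  exact ⟨max 1 T₀, le_max_left _ _, fun T hT => hT₀ T ((le_max_right _ _).trans hT)⟩

theorem pair (hCU : T_CU) (hCR : T_CR) (A ε₀ R κ : ℝ) (hA : 1 ≤ A) (hε : 0 < ε₀) (hR : 1 ≤ R)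
    (hκ : 0 < κ) (ψ₁ ψ₂ : PrimChar) :
    ∃ (κ' T₀ : ℝ) (H₀ : ℕ), 0 < κ' ∧ QQ A ε₀ R κ ψ₁ ψ₂ κ' T₀ H₀ := by
  have he := ee_pos ε₀ hε
  have he1 := ee_le ε₀
  have he2 := ee_le' ε₀
  set e := ee ε₀ with hedef
  have htt : tt ε₀ = e / 2 := rfl
  have hA0 : 0 < A := lt_of_lt_of_le one_pos hA
  have hR' : 1 ≤ 2 * A * R := by nlinarith [mul_le_mul hA hR zero_le_one hA0.le]
  obtain ⟨κU, TU, HU, hκU, hU⟩ := hCU ψ₁ ψ₂ e (2 * A * R) κ he he1 hR' hκ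
  obtain ⟨κR, TR, HR, hκR, hRR⟩ := hCR ψ₂ ψ₁ (A ^ 2) e (2 * A * R) κ (one_le_pow₀ hA) he he1 hR' hκ
  obtain ⟨T1, hT1, hT1'⟩ := ex_rpow (e / 2) (max HU HR : ℕ) (by positivity)
  obtain ⟨T2, hT2, hT2'⟩ := ex_rpow (ε₀ - 20 * e) (A ^ 2) (by linarith)
  refine ⟨min κU κR, max (max T1 T2) (max (max (A * TU) (A * TR)) (2 * A ^ 2)), max HU HR,
    lt_min hκU hκR, ?_⟩
  intro T r₁ r₂ b₁ b₂ hT hr1 hr1' hr2 hr2' hd hb1 hb2 hc1 hc2
  simp only [max_le_iff] at hT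
  obtain ⟨⟨hTa, hTb⟩, ⟨hTc, hTd⟩, hTe⟩ := hT
  have hA2 : 1 ≤ A ^ 2 := one_le_pow₀ hA
  have hTge : A ^ 2 ≤ T := by linarith
  have hT2g : 2 ≤ T := by linarith
  have hTpos : 0 < T := by linarith
  have hT1g : 1 ≤ T := by linarith
  have hAT : A ≤ T := by nlinarith
  have hlogT : 0 < Real.log T := Real.log_pos (by linarith)
  have hAinv : 0 < 1 / A := by positivity
  have hr1p : 0 < r₁ := lt_of_lt_of_le hAinv hr1
  have hr2p : 0 < r₂ := lt_of_lt_of_le hAinv hr2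
  have hTp : (1 : ℝ) ≤ T ^ (e / 2) := Real.one_le_rpow hT1g (by positivity)
  have hYge : max HU HR ≤ ⌊T ^ (e / 2)⌋₊ := Nat.le_floor (hT1' T hTa)
  have hY1 : 1 ≤ ⌊T ^ (e / 2)⌋₊ := Nat.le_floor (by simpa using hTp)
  have hYle : ((⌊T ^ (e / 2)⌋₊ : ℕ) : ℝ) ≤ T ^ (e / 2) := Nat.floor_le (by positivity)
  -- `A^e ≤ T^(e/2)`
  have hAe : A ^ e ≤ T ^ (e / 2) := by
    have : A ^ e = (A ^ 2) ^ (e / 2) := by
      rw [← Real.rpow_natCast A 2, ← Real.rpow_mul hA0.le]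
      congr 1
      push_cast
      ring
    rw [this]
    exact Real.rpow_le_rpow (by positivity) hTge (by positivity)
  -- common facts for `c = r₁` or `r₂`
  have common : ∀ c : ℝ, 1 / A ≤ c → c ≤ A → 0 < c ∧
      T ^ (e / 2) ≤ (c * T) ^ e ∧ c * (R / Real.log T) ≤ (2 * A * R) / Real.log (c * T) ∧
      0 < (c * T) ^ (1 - e) / c ∧ (c * T) ^ (1 - e) / c ≤ T ^ (1 - e / 2) ∧ TU ≤ c * T ∧
      TR ≤ c * T := by
    intro c h1 h2
    have hcp : 0 < c := lt_of_lt_of_le hAinv h1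
    have hcT : T / A ≤ c * T := by
      have := mul_le_mul_of_nonneg_right h1 hTpos.le
      calc T / A = 1 / A * T := by ring
        _ ≤ c * T := this
    have hTA2 : 2 ≤ T / A := by
      rw [le_div_iff₀ hA0]
      nlinarith
    refine ⟨hcp, ?_, ?_, ?_, ?_, ?_, ?_⟩
    · calc T ^ (e / 2) = T ^ e / T ^ (e / 2) := by
            rw [← Real.rpow_sub hTpos]
            congr 1
            ring
        _ ≤ T ^ e / A ^ e := by
            apply div_le_div_of_nonneg_left (by positivity) (by positivity) hAe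
        _ = (T / A) ^ e := by rw [Real.div_rpow hTpos.le hA0.le]
        _ ≤ (c * T) ^ e := Real.rpow_le_rpow (by positivity) hcT he.le
    · have hlogX : 0 < Real.log (c * T) := Real.log_pos (by linarith)
      have hlogX' : Real.log (c * T) ≤ 2 * Real.log T := by
        rw [← Real.log_rpow hTpos]
        apply Real.log_le_log (by positivity)
        rw [show (2 : ℝ) = ((2 : ℕ) : ℝ) by norm_num, Real.rpow_natCast, sq]
        exact mul_le_mul_of_nonneg_right (h2.trans hAT) hTpos.le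
      rw [le_div_iff₀ hlogX]
      calc c * (R / Real.log T) * Real.log (c * T)
          ≤ c * (R / Real.log T) * (2 * Real.log T) := by
            apply mul_le_mul_of_nonneg_left hlogX'
            positivity
        _ = 2 * c * R := by field_simp
        _ ≤ 2 * A * R := by
            apply mul_le_mul_of_nonneg_right _ (by linarith)
            linarith
    · positivity
    · rw [Real.mul_rpow hcp.le hTpos.le]
      have h3 : c ^ (1 - e) / c = (1 / c) ^ e := by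
        rw [Real.rpow_sub hcp, Real.rpow_one, one_div, Real.inv_rpow hcp.le]
        field_simp
      calc c ^ (1 - e) * T ^ (1 - e) / c = (c ^ (1 - e) / c) * T ^ (1 - e) := by ring
        _ = (1 / c) ^ e * T ^ (1 - e) := by rw [h3]
        _ ≤ A ^ e * T ^ (1 - e) := by
            apply mul_le_mul_of_nonneg_right _ (by positivity)
            apply Real.rpow_le_rpow (by positivity) _ he.le
            rw [div_le_iff₀ hcp]
            rw [div_le_iff₀ hA0] at h1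
            linarith
        _ ≤ T ^ (e / 2) * T ^ (1 - e) := by
            apply mul_le_mul_of_nonneg_right hAe (by positivity)
        _ = T ^ (1 - e / 2) := by
            rw [← Real.rpow_add hTpos]
            congr 1
            ring
    · refine le_trans ?_ hcT
      rw [le_div_iff₀ hA0]
      linarith
    · refine le_trans ?_ hcT
      rw [le_div_iff₀ hA0]
      linarith
  rw [htt]
  by_cases hclose : (1 - 16 * e) * r₂ < r₁
  · -- close case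
    obtain ⟨hcp, h1, h2, h3, h4, h5, h6⟩ := common r₁ hr1 hr1'
    refine ⟨(r₁ * T) ^ (1 - e) / r₁, h3, h4, ?_⟩
    intro u hu1 hu2
    have hgap : 1 + (r₁ * T) ^ (-1 + 20 * e) ≤ r₂ / r₁ := by
      rw [le_div_iff₀ hcp]
      have h7 : (r₁ * T) ^ (-1 + 20 * e) ≤ A * T ^ (-1 + 20 * e) := by
        rw [Real.mul_rpow hcp.le hTpos.le]
        apply mul_le_mul_of_nonneg_right _ (by positivity)
        have h8 : r₁ ^ (-1 + 20 * e) = (1 / r₁) ^ (1 - 20 * e) := by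
          rw [one_div, Real.inv_rpow hcp.le, ← Real.rpow_neg hcp.le]
          congr 1
          ring
        rw [h8]
        have h9 : 1 / r₁ ≤ A := by
          rw [div_le_iff₀ hcp]
          rw [div_le_iff₀ hA0] at hr1
          linarith
        calc (1 / r₁) ^ (1 - 20 * e) ≤ A ^ (1 - 20 * e) :=
              Real.rpow_le_rpow (by positivity) h9 (by linarith)
          _ ≤ A ^ (1 : ℝ) := Real.rpow_le_rpow_of_exponent_le hA (by linarith)
          _ = A := Real.rpow_one A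
      have h10 : A ^ 2 * T ^ (-1 + 20 * e) ≤ T ^ (-1 + ε₀) := by
        calc A ^ 2 * T ^ (-1 + 20 * e) ≤ T ^ (ε₀ - 20 * e) * T ^ (-1 + 20 * e) :=
              mul_le_mul_of_nonneg_right (hT2' T hTb) (by positivity)
          _ = T ^ (-1 + ε₀) := by
              rw [← Real.rpow_add hTpos]
              congr 1
              ring
      have h11 : (r₁ * T) ^ (-1 + 20 * e) * r₁ ≤ A ^ 2 * T ^ (-1 + 20 * e) := by
        calc (r₁ * T) ^ (-1 + 20 * e) * r₁ ≤ (A * T ^ (-1 + 20 * e)) * A :=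
              mul_le_mul h7 hr1' hcp.le (by positivity)
          _ = A ^ 2 * T ^ (-1 + 20 * e) := by ring
      linarith
    have hcl : r₂ / r₁ * (1 - 16 * e) ≤ 1 := by
      rw [div_mul_eq_mul_div, div_le_one hcp]
      linarith
    have hη0 : 0 ≤ r₁ * (R / Real.log T) := by positivity
    have key := hU (r₁ * T) (r₁ * u) (r₂ / r₁) (r₁ * (R / Real.log T)) b₁ b₂ ⌊T ^ (e / 2)⌋₊
      ⌊T ^ (e / 2)⌋₊ h5 (mul_le_mul_of_nonneg_left hu1 hcp.le)
      (by nlinarith [mul_le_mul_of_nonneg_left hu2 hcp.le]) hgap hcl hη0 h2 hb1 hb2 hY1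
      (hYle.trans h1) ((le_max_left _ _).trans hYge) (hYle.trans h1)
      (hc2.mono (min_le_left _ _) (le_max_left _ _))
    have hs := Ga_scale r₁ ((r₁ * T) ^ (1 - e) / r₁) (T / 4) u hcp (fun t : ℝ =>
      gl ψ₁ b₁ ⌊T ^ (e / 2)⌋₊ 1 (r₁ * (R / Real.log T)) t *
            (starRingEnd ℂ) (gl ψ₂ b₂ ⌊T ^ (e / 2)⌋₊ (r₂ / r₁) (r₁ * (R / Real.log T)) t))
    rw [mul_div_cancel₀ _ hcp.ne', show r₁ * (T / 4) = r₁ * T / 4 by ring] at hs
    rw [hs] at key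
    have hfun : (fun t : ℝ => (fun t : ℝ =>
      gl ψ₁ b₁ ⌊T ^ (e / 2)⌋₊ 1 (r₁ * (R / Real.log T)) t *
            (starRingEnd ℂ) (gl ψ₂ b₂ ⌊T ^ (e / 2)⌋₊ (r₂ / r₁) (r₁ * (R / Real.log T)) t))
            (r₁ * t)) = (fun t : ℝ => gl ψ₁ b₁ ⌊T ^ (e / 2)⌋₊ r₁ (R / Real.log T) t *
            (starRingEnd ℂ) (gl ψ₂ b₂ ⌊T ^ (e / 2)⌋₊ r₂ (R / Real.log T) t)) := by
      ext t
      simp only
      rw [gl_scale _ _ _ _ _ _ _ hcp]
      have := gl_scale ψ₁ b₁ ⌊T ^ (e / 2)⌋₊ r₁ r₁ (R / Real.log T) t hcp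
      rw [div_self hcp.ne'] at this
      rw [this]
    rw [hfun] at key
    exact key
  · -- far case
    push Not at hclose
    obtain ⟨hcp, h1, h2, h3, h4, h5, h6⟩ := common r₂ hr2 hr2'
    refine ⟨(r₂ * T) ^ (1 - e) / r₂, h3, h4, ?_⟩
    intro u hu1 hu2
    apply Ga_swap
    have hlo : 1 / A ^ 2 ≤ r₁ / r₂ := by
      rw [div_le_div_iff₀ (by positivity) hcp]
      have h7 : 1 ≤ r₁ * A := by
        rw [div_le_iff₀ hA0] at hr1
        exact hr1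
      calc 1 * r₂ ≤ (r₁ * A) * A := mul_le_mul h7 hr2' hcp.le (by positivity)
        _ = r₁ * A ^ 2 := by ring
    have hup : r₁ / r₂ ≤ 1 - 16 * e := by
      rw [div_le_iff₀ hcp]
      exact hclose
    have hη0 : 0 ≤ r₂ * (R / Real.log T) := by positivity
    have key := hRR (r₂ * T) (r₂ * u) (r₁ / r₂) (r₂ * (R / Real.log T)) b₂ b₁ ⌊T ^ (e / 2)⌋₊
      ⌊T ^ (e / 2)⌋₊ h6 (mul_le_mul_of_nonneg_left hu1 hcp.le)
      (by nlinarith [mul_le_mul_of_nonneg_left hu2 hcp.le]) hlo hup hη0 h2 hb2 hb1 hY1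
      (hYle.trans h1) ((le_max_right _ _).trans hYge) (hYle.trans h1)
      (hc1.mono (min_le_right _ _) (le_max_right _ _))
    have hs := Ga_scale r₂ ((r₂ * T) ^ (1 - e) / r₂) (T / 4) u hcp (fun t : ℝ =>
      gl ψ₂ b₂ ⌊T ^ (e / 2)⌋₊ 1 (r₂ * (R / Real.log T)) t *
            (starRingEnd ℂ) (gl ψ₁ b₁ ⌊T ^ (e / 2)⌋₊ (r₁ / r₂) (r₂ * (R / Real.log T)) t))
    rw [mul_div_cancel₀ _ hcp.ne', show r₂ * (T / 4) = r₂ * T / 4 by ring] at hs
    rw [hs] at key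
    have hfun : (fun t : ℝ => (fun t : ℝ =>
      gl ψ₂ b₂ ⌊T ^ (e / 2)⌋₊ 1 (r₂ * (R / Real.log T)) t *
            (starRingEnd ℂ) (gl ψ₁ b₁ ⌊T ^ (e / 2)⌋₊ (r₁ / r₂) (r₂ * (R / Real.log T)) t))
            (r₂ * t)) = (fun t : ℝ => gl ψ₂ b₂ ⌊T ^ (e / 2)⌋₊ r₂ (R / Real.log T) t *
            (starRingEnd ℂ) (gl ψ₁ b₁ ⌊T ^ (e / 2)⌋₊ r₁ (R / Real.log T) t)) := by
      ext t
      simp only
      rw [gl_scale _ _ _ _ _ _ _ hcp]
      have := gl_scale ψ₂ b₂ ⌊T ^ (e / 2)⌋₊ r₂ r₂ (R / Real.log T) t hcp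
      rw [div_self hcp.ne'] at this
      rw [this]
    rw [hfun] at key
    exact key

/-- (CG) the cross term of two dilations. -/
theorem pf_CG (hCU : T_CU) (hCR : T_CR) : T_CG := by
  intro S A ε₀ R κ hS hA hε hR hκ
  obtain ⟨k, t, h, hk, hall⟩ := fin_mono (S ×ˢ S) (hS.prod hS)
    (fun p k t h => QQ A ε₀ R κ p.1 p.2 k t h)
    (by
      intro a k k' t t' h h' hP hk ht hh T r₁ r₂ b₁ b₂ hT a1 a2 a3 a4 a5 a6 a7 a8 a9
      exact hP T r₁ r₂ b₁ b₂ (ht.trans hT) a1 a2 a3 a4 a5 a6 a7 (a8.mono hk hh) (a9.mono hk hh))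
    (fun p => pair hCU hCR A ε₀ R κ hA hε hR hκ p.1 p.2)
  refine ⟨k, t, h, hk, ?_⟩
  intro T r₁ r₂ ψ₁ ψ₂ b₁ b₂ hT h1 h2 a1 a2 a3 a4 a5 a6 a7 a8 a9
  rcases le_total r₁ r₂ with hle | hle
  · rw [abs_of_nonpos (by linarith)] at a5
    exact hall (ψ₁, ψ₂) ⟨h1, h2⟩ T r₁ r₂ b₁ b₂ hT a1 a2 a3 a4 (by linarith) a6 a7 a8 a9
  · rw [abs_of_nonneg (by linarith)] at a5
    obtain ⟨H, hH, hH', hu⟩ := hall (ψ₂, ψ₁) ⟨h2, h1⟩ T r₂ r₁ b₂ b₁ hT a3 a4 a1 a2 a5 a7 a6 a9 a8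
    refine ⟨H, hH, hH', fun u hu1 hu2 => ?_⟩
    exact Ga_swap _ _ _ _ _ _ (hu u hu1 hu2)

end Pool.Agent.H39.RU
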