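import Pool.Agent.H47.RU.Targets

/-!
# Few integers have a power close to an integer
-/

set_option autoImplicit false

open Complex MeasureTheory Set

namespace Pool.Agent.H39.RU

open Pool.Agent.H23.GLH (PrimChar)
open Pool.Agent.H28.MZ Pool.Agent.H47.RU

theorem ei_add' (x y : ℝ) : ei (x + y) = ei x * ei y := by
  unfold ei
  rw [← Complex.exp_add]
  congr 1
  push_cast
  ring

theorem ei_conj' (x : ℝ) : (starRingEnd ℂ) (ei x) = ei (-x) := by
  unfold ei
  rw [← Complex.exp_conj]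
  simp

theorem ei_int' (n : ℤ) : ei (2 * Real.pi * n) = 1 := by
  unfold ei
  rw [← Complex.exp_int_mul_two_pi_mul_I n]
  congr 1
  push_cast
  ring

theorem ei_re' (x : ℝ) : (ei x).re = Real.cos x := by
  unfold ei
  exact Complex.exp_ofReal_mul_I_re x

theorem fejer_low (H : ℕ) (x : ℝ) (n : ℤ) (hH : 1 ≤ H) (h : |x - n| ≤ 1 / (8 * H)) :
    (H : ℝ) / 2 ≤ ‖∑ j ∈ Finset.range H, ei (2 * Real.pi * (j * x))‖ := by
  have hH0 : (0 : ℝ) < H := by exact_mod_cast hH
  refine le_trans ?_ (Complex.re_le_norm _)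
  rw [Complex.re_sum]
  have hterm : ∀ j ∈ Finset.range H, (1 : ℝ) / 2 ≤ (ei (2 * Real.pi * (j * x))).re := by
    intro j hj
    have hj' : (j : ℝ) ≤ H := by exact_mod_cast (Finset.mem_range.1 hj).le
    have h1 : ei (2 * Real.pi * (j * x)) = ei (2 * Real.pi * (j * (x - n))) := by
      have h2 : 2 * Real.pi * (j * x) = 2 * Real.pi * (j * (x - n)) +
          2 * Real.pi * (((j : ℤ) * n : ℤ) : ℝ) := by
        push_cast
        ring
      rw [h2, ei_add', ei_int', mul_one]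
    rw [h1, ei_re']
    have h3 : |2 * Real.pi * (j * (x - n))| ≤ 1 := by
      rw [abs_mul, abs_mul, abs_mul, abs_of_pos Real.pi_pos, abs_of_pos (by norm_num : (0:ℝ) < 2),
        abs_of_nonneg (Nat.cast_nonneg j)]
      calc 2 * Real.pi * (j * |x - n|) ≤ 2 * 4 * (H * (1 / (8 * H))) := by
            apply mul_le_mul _ _ (by positivity) (by norm_num)
            · linarith [Real.pi_le_four]
            · exact mul_le_mul hj' h (abs_nonneg _) hH0.le
        _ = 1 := by field_simp; norm_num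
    have h4 := Real.one_sub_sq_div_two_le_cos (x := 2 * Real.pi * (j * (x - n)))
    have h5 : (2 * Real.pi * (j * (x - n))) ^ 2 ≤ 1 := by
      rw [← sq_abs]
      exact pow_le_one₀ (abs_nonneg _) h3
    linarith
  calc (H : ℝ) / 2 = ∑ j ∈ Finset.range H, (1 : ℝ) / 2 := by
        rw [Finset.sum_const, Finset.card_range, nsmul_eq_mul]
        ring
    _ ≤ _ := Finset.sum_le_sum hterm

theorem dbl_sum (G : ℝ → ℝ) (hG : ∀ y, G (-y) = G y) (hG0 : ∀ y, 0 ≤ G y) (H : ℕ) :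
    ∑ j ∈ Finset.range H, ∑ k ∈ Finset.range H, G ((j : ℝ) - k) ≤
      H * G 0 + 2 * H * ∑ m ∈ Finset.range H, G ((m : ℝ) + 1) := by
  induction H with
  | zero => simp
  | succ H ih =>
    have h1 : ∑ j ∈ Finset.range H, G ((H : ℝ) - j) = ∑ m ∈ Finset.range H, G ((m : ℝ) + 1) := by
      rw [← Finset.sum_range_reflect (fun m : ℕ => G ((m : ℝ) + 1))]
      apply Finset.sum_congr rfl
      intro j hj
      have hj' := Finset.mem_range.1 hj
      congr 1
      rw [Nat.cast_sub (by omega), Nat.cast_sub (by omega)]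
      push_cast
      ring
    have h2 : ∑ j ∈ Finset.range H, G ((j : ℝ) - H) = ∑ m ∈ Finset.range H, G ((m : ℝ) + 1) := by
      rw [← h1]
      apply Finset.sum_congr rfl
      intro j _
      rw [← hG]
      congr 1
      ring
    have h3 : ∑ j ∈ Finset.range (H + 1), ∑ k ∈ Finset.range (H + 1), G ((j : ℝ) - k) =
        ∑ j ∈ Finset.range H, ∑ k ∈ Finset.range H, G ((j : ℝ) - k) +
          2 * ∑ m ∈ Finset.range H, G ((m : ℝ) + 1) + G 0 := by
      simp only [Finset.sum_range_succ, Finset.sum_add_distrib, h1, h2, sub_self]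
      ring
    rw [h3, Finset.sum_range_succ _ H]
    push_cast
    have h4 : 0 ≤ G ((H : ℝ) + 1) := hG0 _
    have h5 : 0 ≤ ∑ m ∈ Finset.range H, G ((m : ℝ) + 1) := Finset.sum_nonneg fun _ _ => hG0 _
    have h6 : (0 : ℝ) ≤ H := Nat.cast_nonneg H
    nlinarith [mul_nonneg h6 h4]

theorem sum_inv_sqrt (H : ℕ) :
    ∑ m ∈ Finset.range H, 1 / Real.sqrt ((m : ℝ) + 1) ≤ 2 * Real.sqrt H := by
  induction H with
  | zero => simp
  | succ H ih =>
    rw [Finset.sum_range_succ]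
    have h1 : (0 : ℝ) ≤ H := Nat.cast_nonneg H
    have h2 : 0 < Real.sqrt ((H : ℝ) + 1) := Real.sqrt_pos.2 (by linarith)
    have h3 : Real.sqrt H ^ 2 = H := Real.sq_sqrt h1
    have h4 : Real.sqrt ((H : ℝ) + 1) ^ 2 = H + 1 := Real.sq_sqrt (by linarith)
    have h5 : 0 ≤ Real.sqrt (H : ℝ) := Real.sqrt_nonneg _
    push_cast
    have h6 : 1 / Real.sqrt ((H : ℝ) + 1) ≤ 2 * Real.sqrt ((H : ℝ) + 1) - 2 * Real.sqrt H := by
      rw [div_le_iff₀ h2]
      nlinarith [sq_nonneg (Real.sqrt ((H : ℝ) + 1) - Real.sqrt H)]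
    linarith

theorem count_bound (I N : Finset ℤ) (x : ℤ → ℝ) (H : ℕ) (hH : 1 ≤ H) (hN : N ⊆ I)
    (hnear : ∀ K ∈ N, ∃ n : ℤ, |x K - n| ≤ 1 / (8 * H)) :
    (N.card : ℝ) * ((H : ℝ) ^ 2 / 4) ≤ H * I.card +
      2 * H * ∑ m ∈ Finset.range H, ‖∑ K ∈ I, ei (2 * Real.pi * (((m : ℝ) + 1) * x K))‖ := by
  set G : ℝ → ℝ := fun y => ‖∑ K ∈ I, ei (2 * Real.pi * (y * x K))‖ with hG
  have hGe : ∀ y, G (-y) = G y := by
    intro y
    simp only [hG]
    rw [← RCLike.norm_conj (∑ K ∈ I, ei (2 * Real.pi * (y * x K))), map_sum]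
    congr 1
    apply Finset.sum_congr rfl
    intro K _
    rw [ei_conj']
    congr 1
    ring
  have hG0 : G 0 = I.card := by
    simp only [hG]
    simp [ei]
  have h1 := dbl_sum G hGe (fun y => norm_nonneg _) H
  rw [hG0] at h1
  refine le_trans ?_ h1
  have h2 : (N.card : ℝ) * ((H : ℝ) ^ 2 / 4) ≤
      ∑ K ∈ I, ‖∑ j ∈ Finset.range H, ei (2 * Real.pi * (j * x K))‖ ^ 2 := by
    calc (N.card : ℝ) * ((H : ℝ) ^ 2 / 4) = ∑ K ∈ N, ((H : ℝ) ^ 2 / 4) := by
          rw [Finset.sum_const, nsmul_eq_mul]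
      _ ≤ ∑ K ∈ N, ‖∑ j ∈ Finset.range H, ei (2 * Real.pi * (j * x K))‖ ^ 2 := by
          apply Finset.sum_le_sum
          intro K hK
          obtain ⟨n, hn⟩ := hnear K hK
          have := fejer_low H (x K) n hH hn
          have h3 : (0 : ℝ) ≤ H := Nat.cast_nonneg H
          calc ((H : ℝ) ^ 2 / 4) = (H / 2) ^ 2 := by ring
            _ ≤ _ := pow_le_pow_left₀ (by positivity) this 2
      _ ≤ _ := Finset.sum_le_sum_of_subset_of_nonneg hN (fun _ _ _ => by positivity)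
  refine h2.trans ?_
  have h3 : ((∑ K ∈ I, ‖∑ j ∈ Finset.range H, ei (2 * Real.pi * (j * x K))‖ ^ 2 : ℝ) : ℂ) =
      ∑ j ∈ Finset.range H, ∑ k ∈ Finset.range H,
        ∑ K ∈ I, ei (2 * Real.pi * (((j : ℝ) - k) * x K)) := by
    push_cast
    have h4 : ∀ K : ℤ, ((‖∑ j ∈ Finset.range H, ei (2 * Real.pi * (j * x K))‖ : ℂ)) ^ 2 =
        ∑ j ∈ Finset.range H, ∑ k ∈ Finset.range H,
          ei (2 * Real.pi * (((j : ℝ) - k) * x K)) := by
      intro K
      rw [← Complex.mul_conj', map_sum, Finset.sum_mul_sum]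
      apply Finset.sum_congr rfl
      intro j _
      apply Finset.sum_congr rfl
      intro k _
      rw [ei_conj', ← ei_add']
      congr 1
      ring
    simp only [h4]
    rw [Finset.sum_comm]
    apply Finset.sum_congr rfl
    intro j _
    rw [Finset.sum_comm]
  have h5 : (0 : ℝ) ≤ ∑ K ∈ I, ‖∑ j ∈ Finset.range H, ei (2 * Real.pi * (j * x K))‖ ^ 2 :=
    Finset.sum_nonneg fun _ _ => by positivity
  calc ∑ K ∈ I, ‖∑ j ∈ Finset.range H, ei (2 * Real.pi * (j * x K))‖ ^ 2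
      = ‖((∑ K ∈ I, ‖∑ j ∈ Finset.range H, ei (2 * Real.pi * (j * x K))‖ ^ 2 : ℝ) : ℂ)‖ := by
        rw [Complex.norm_real, Real.norm_of_nonneg h5]
    _ ≤ _ := by
        rw [h3]
        refine (norm_sum_le _ _).trans (Finset.sum_le_sum fun j _ => ?_)
        exact norm_sum_le _ _

/-- van der Corput for the power function -/
theorem vdc (C : ℝ) (hC : 0 < C) (hVS : ∀ (A B : ℤ) (f f' f'' : ℝ → ℝ) (lam : ℝ), 0 < lam →
    A ≤ B →
    (∀ x ∈ Icc (A : ℝ) B, HasDerivAt f (f' x) x) → (∀ x ∈ Icc (A : ℝ) B, HasDerivAt f' (f'' x) x) →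
    (∀ x ∈ Icc (A : ℝ) B, lam ≤ f'' x ∧ f'' x ≤ 2 * lam) →
    ‖∑ n ∈ Finset.Icc A B, ei (2 * Real.pi * f n)‖ ≤
      C * (((B : ℝ) - A + 1) * Real.sqrt lam + 1 / Real.sqrt lam))
    (M r m : ℝ) (A B : ℤ) (hM : 1 ≤ M) (hr : 1 < r) (hr' : r ≤ 2) (hm : 0 < m) (hA : M ≤ A)
    (hB : (B : ℝ) ≤ 2 * M) (hAB : A ≤ B) :
    ‖∑ n ∈ Finset.Icc A B, ei (2 * Real.pi * (m * (n : ℝ) ^ r))‖ ≤
      C * ((2 * M) * Real.sqrt (m * (r * (r - 1) * (2 * M) ^ (r - 2))) +
        1 / Real.sqrt (m * (r * (r - 1) * (2 * M) ^ (r - 2)))) := by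
  have hlam : 0 < m * (r * (r - 1) * (2 * M) ^ (r - 2)) := by
    have : 0 < r - 1 := by linarith
    positivity
  have h1 := hVS A B (fun x => m * x ^ r) (fun x => m * (r * x ^ (r - 1)))
    (fun x => m * (r * ((r - 1) * x ^ (r - 1 - 1)))) _ hlam hAB
    (by
      intro x hx
      have hx0 : 0 < x := by linarith [hx.1]
      exact (Real.hasDerivAt_rpow_const (Or.inl hx0.ne')).const_mul m)
    (by
      intro x hx
      have hx0 : 0 < x := by linarith [hx.1]
      exact ((Real.hasDerivAt_rpow_const (Or.inl hx0.ne')).const_mul r).const_mul m)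
    (by
      intro x hx
      have hxM : M ≤ x := hA.trans hx.1
      have hx2 : x ≤ 2 * M := hx.2.trans hB
      have hx0 : 0 < x := by linarith
      have he : r - 1 - 1 = r - 2 := by ring
      rw [he]
      have hr1 : 0 < r - 1 := by linarith
      have hlow : (2 * M) ^ (r - 2) ≤ x ^ (r - 2) :=
        Real.rpow_le_rpow_of_nonpos hx0 hx2 (by linarith)
      have hup : x ^ (r - 2) ≤ 2 * (2 * M) ^ (r - 2) := by
        calc x ^ (r - 2) ≤ M ^ (r - 2) :=
              Real.rpow_le_rpow_of_nonpos (by linarith) hxM (by linarith)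
          _ = (2 : ℝ) ^ (2 - r) * (2 * M) ^ (r - 2) := by
              rw [Real.mul_rpow (by norm_num) (by linarith), ← mul_assoc,
                ← Real.rpow_add (by norm_num)]
              simp
          _ ≤ 2 ^ (1 : ℝ) * (2 * M) ^ (r - 2) := by
              apply mul_le_mul_of_nonneg_right _ (by positivity)
              exact Real.rpow_le_rpow_of_exponent_le (by norm_num) (by linarith)
          _ = 2 * (2 * M) ^ (r - 2) := by rw [Real.rpow_one]
      constructor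
      · have : m * (r * (r - 1) * (2 * M) ^ (r - 2)) ≤ m * (r * (r - 1) * x ^ (r - 2)) := by
          gcongr
        calc _ ≤ _ := this
          _ = _ := by ring
      · have : m * (r * (r - 1) * x ^ (r - 2)) ≤ m * (r * (r - 1) * (2 * (2 * M) ^ (r - 2))) := by
          gcongr
        calc m * (r * ((r - 1) * x ^ (r - 2))) = m * (r * (r - 1) * x ^ (r - 2)) := by ring
          _ ≤ _ := this
          _ = _ := by ring)
  refine h1.trans ?_
  apply mul_le_mul_of_nonneg_left _ hC.le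
  apply add_le_add_left
  apply mul_le_mul_of_nonneg_right _ (Real.sqrt_nonneg _)
  linarith

/-- many terms: `δ` not too small -/
theorem case2 (C : ℝ) (hC : 0 < C) (hVS : ∀ (A B : ℤ) (f f' f'' : ℝ → ℝ) (lam : ℝ), 0 < lam →
    A ≤ B →
    (∀ x ∈ Icc (A : ℝ) B, HasDerivAt f (f' x) x) → (∀ x ∈ Icc (A : ℝ) B, HasDerivAt f' (f'' x) x) →
    (∀ x ∈ Icc (A : ℝ) B, lam ≤ f'' x ∧ f'' x ≤ 2 * lam) →
    ‖∑ n ∈ Finset.Icc A B, ei (2 * Real.pi * f n)‖ ≤
      C * (((B : ℝ) - A + 1) * Real.sqrt lam + 1 / Real.sqrt lam))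
    (ε M r : ℝ) (hε : 0 < ε) (hε' : ε ≤ 1 / 100) (hM : 1 ≤ M) (hr : M ^ (-1 - ε / 8) ≤ r - 1)
    (hr' : r ≤ 1 + ε / 4) (N : Finset ℤ) (hN : N ⊆ Finset.Icc (⌊M⌋ + 1) ⌊2 * M⌋)
    (hnear : ∀ K ∈ N, ∃ n : ℤ, |((K : ℝ)) ^ r - n| ≤ 1 / (8 * (⌊M ^ (ε / 4)⌋₊ : ℕ))) :
    (N.card : ℝ) ≤ (16 + 96 * C) * M ^ (1 - ε / 16) := by
  have hM0 : 0 < M := by linarith
  set H := ⌊M ^ (ε / 4)⌋₊ with hHdef
  have hX1 : (1 : ℝ) ≤ M ^ (ε / 4) := Real.one_le_rpow hM (by positivity)
  have hH1 : 1 ≤ H := Nat.le_floor (by simpa using hX1)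
  have hH1r : (1 : ℝ) ≤ H := by exact_mod_cast hH1
  have hHle : (H : ℝ) ≤ M ^ (ε / 4) := Nat.floor_le (by positivity)
  have hHge : M ^ (ε / 4) / 2 ≤ H := by
    have := Nat.lt_floor_add_one (M ^ (ε / 4))
    rw [← hHdef] at this
    linarith
  have hr1 : 0 < r - 1 := lt_of_lt_of_le (by positivity) hr
  have hcb := count_bound (Finset.Icc (⌊M⌋ + 1) ⌊2 * M⌋) N (fun K => (K : ℝ) ^ r) H hH1 hN hnear
  have hAB : ⌊M⌋ + 1 ≤ ⌊2 * M⌋ := by
    rw [Int.le_floor]
    push_cast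
    linarith [Int.floor_le M]
  have hcard : ((Finset.Icc (⌊M⌋ + 1) ⌊2 * M⌋).card : ℝ) ≤ 2 * M := by
    rw [Int.card_Icc]
    have h1 : ((⌊2 * M⌋ + 1 - (⌊M⌋ + 1)).toNat : ℤ) = ⌊2 * M⌋ - ⌊M⌋ := by
      rw [Int.toNat_of_nonneg (by omega)]
      ring
    have h2 : ((⌊2 * M⌋ + 1 - (⌊M⌋ + 1)).toNat : ℝ) = ((⌊2 * M⌋ - ⌊M⌋ : ℤ) : ℝ) := by
      exact_mod_cast h1
    rw [h2]
    push_cast
    linarith [Int.floor_le (2 * M), Int.lt_floor_add_one M]
  set w := r * (r - 1) * (2 * M) ^ (r - 2) with hw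
  have hrpos : 0 < r := by linarith
  have hw0 : 0 < w := mul_pos (mul_pos hrpos hr1) (Real.rpow_pos_of_pos (by linarith) _)
  have hwup : w ≤ 2 * M ^ (-1 + ε / 4) := by
    have h1 : (2 * M) ^ (r - 2) ≤ M ^ (-1 + ε / 4) := by
      calc (2 * M) ^ (r - 2) ≤ M ^ (r - 2) :=
            Real.rpow_le_rpow_of_nonpos hM0 (by linarith) (by linarith)
        _ ≤ M ^ (-1 + ε / 4) := Real.rpow_le_rpow_of_exponent_le hM (by linarith)
    have h2 : r * (r - 1) ≤ 2 := by nlinarith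
    exact mul_le_mul h2 h1 (by positivity) (by norm_num)
  have hwlo : (1 / (2 * M ^ (1 + ε / 16))) ^ 2 ≤ w := by
    have h1 : (2 * M)⁻¹ ≤ (2 * M) ^ (r - 2) := by
      rw [← Real.rpow_neg_one]
      exact Real.rpow_le_rpow_of_exponent_le (by linarith) (by linarith)
    have h2 : (M ^ (-1 - ε / 8)) * (2 * M)⁻¹ ≤ w := by
      rw [hw]
      apply mul_le_mul _ h1 (by positivity) (mul_pos hrpos hr1).le
      nlinarith
    refine le_trans ?_ h2
    have h3 : (M ^ (1 + ε / 16)) ^ 2 = M ^ (1 + ε / 8) * M := by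
      rw [← Real.rpow_natCast, ← Real.rpow_mul hM0.le]
      nth_rewrite 3 [← Real.rpow_one M]
      rw [← Real.rpow_add hM0]
      congr 1
      push_cast
      ring
    have h4 : M ^ (-1 - ε / 8) = (M ^ (1 + ε / 8))⁻¹ := by
      rw [← Real.rpow_neg hM0.le]
      congr 1
      ring
    rw [h4, div_pow, one_pow, mul_pow, h3, ← mul_inv, one_div]
    apply inv_anti₀ (by positivity)
    have h5 : 0 < M ^ (1 + ε / 8) * M := by positivity
    nlinarith
  have hsw : 1 / Real.sqrt w ≤ 2 * M ^ (1 + ε / 16) := by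
    have h1 : 1 / (2 * M ^ (1 + ε / 16)) ≤ Real.sqrt w := Real.le_sqrt_of_sq_le hwlo
    have h2 : 0 < 2 * M ^ (1 + ε / 16) := by positivity
    rw [div_le_iff₀ (Real.sqrt_pos.2 hw0)]
    rw [div_le_iff₀ h2] at h1
    linarith
  have hS : ∀ m ∈ Finset.range H,
      ‖∑ K ∈ Finset.Icc (⌊M⌋ + 1) ⌊2 * M⌋, ei (2 * Real.pi * (((m : ℝ) + 1) * (K : ℝ) ^ r))‖ ≤
        C * (4 * M ^ (1 / 2 + ε / 4)) + C * (2 * M ^ (1 + ε / 16)) *
          (1 / Real.sqrt ((m : ℝ) + 1)) := by
    intro m hm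
    have hmH : (m : ℝ) + 1 ≤ H := by exact_mod_cast Finset.mem_range.1 hm
    have hm0 : (0 : ℝ) < (m : ℝ) + 1 := by positivity
    have h1 := vdc C hC hVS M r ((m : ℝ) + 1) (⌊M⌋ + 1) ⌊2 * M⌋ hM (by linarith) (by linarith) hm0
      (by push_cast; linarith [Int.lt_floor_add_one M]) (Int.floor_le _) hAB
    rw [← hw] at h1
    refine h1.trans ?_
    have h2 : (2 * M) * Real.sqrt (((m : ℝ) + 1) * w) ≤ 4 * M ^ (1 / 2 + ε / 4) := by
      have h3 : Real.sqrt (((m : ℝ) + 1) * w) ≤ 2 * M ^ (-(1 / 2) + ε / 4) := by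
        apply Real.sqrt_le_iff.2
        refine ⟨by positivity, ?_⟩
        calc ((m : ℝ) + 1) * w ≤ M ^ (ε / 4) * (2 * M ^ (-1 + ε / 4)) :=
              mul_le_mul (hmH.trans hHle) hwup hw0.le (by positivity)
          _ = 2 * M ^ (-1 + ε / 2) := by
              rw [mul_left_comm, ← Real.rpow_add hM0]
              congr 2
              ring
          _ ≤ 4 * M ^ (-1 + ε / 2) := by
              have : 0 < M ^ (-1 + ε / 2) := by positivity
              linarith
          _ = (2 * M ^ (-(1 / 2) + ε / 4)) ^ 2 := by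
              rw [mul_pow, ← Real.rpow_natCast (M ^ (-(1 / 2) + ε / 4)), ← Real.rpow_mul hM0.le]
              norm_num
              congr 1
              ring
      calc (2 * M) * Real.sqrt (((m : ℝ) + 1) * w) ≤ (2 * M) * (2 * M ^ (-(1 / 2) + ε / 4)) :=
            mul_le_mul_of_nonneg_left h3 (by positivity)
        _ = 4 * (M ^ (1 : ℝ) * M ^ (-(1 / 2) + ε / 4)) := by
            rw [Real.rpow_one]
            ring
        _ = 4 * M ^ (1 / 2 + ε / 4) := by
            rw [← Real.rpow_add hM0]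
            congr 2
            ring
    have h4 : 1 / Real.sqrt (((m : ℝ) + 1) * w) ≤
        (2 * M ^ (1 + ε / 16)) * (1 / Real.sqrt ((m : ℝ) + 1)) := by
      rw [Real.sqrt_mul hm0.le]
      have h5 : 1 / (Real.sqrt ((m : ℝ) + 1) * Real.sqrt w) =
          (1 / Real.sqrt w) * (1 / Real.sqrt ((m : ℝ) + 1)) := by
        rw [one_div, one_div, one_div, mul_inv, mul_comm]
      rw [h5]
      exact mul_le_mul_of_nonneg_right hsw (by positivity)
    calc C * ((2 * M) * Real.sqrt (((m : ℝ) + 1) * w) + 1 / Real.sqrt (((m : ℝ) + 1) * w))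
        ≤ C * (4 * M ^ (1 / 2 + ε / 4) +
            (2 * M ^ (1 + ε / 16)) * (1 / Real.sqrt ((m : ℝ) + 1))) :=
          mul_le_mul_of_nonneg_left (add_le_add h2 h4) hC.le
      _ = _ := by ring
  have hSum : ∑ m ∈ Finset.range H,
      ‖∑ K ∈ Finset.Icc (⌊M⌋ + 1) ⌊2 * M⌋, ei (2 * Real.pi * (((m : ℝ) + 1) * (K : ℝ) ^ r))‖ ≤
        H * (C * (4 * M ^ (1 / 2 + ε / 4))) +
          C * (2 * M ^ (1 + ε / 16)) * (2 * Real.sqrt H) := by
    refine (Finset.sum_le_sum hS).trans ?_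
    rw [Finset.sum_add_distrib, Finset.sum_const, Finset.card_range, nsmul_eq_mul,
      ← Finset.mul_sum]
    apply add_le_add_right
    exact mul_le_mul_of_nonneg_left (sum_inv_sqrt H) (by positivity)
  have hsq : M ^ (ε / 8) / 2 ≤ Real.sqrt H := by
    apply Real.le_sqrt_of_sq_le
    have h1 : (M ^ (ε / 8) / 2) ^ 2 = M ^ (ε / 4) / 4 := by
      rw [div_pow, ← Real.rpow_natCast, ← Real.rpow_mul hM0.le]
      norm_num
      congr 1
      ring
    rw [h1]
    have : 0 < M ^ (ε / 4) := by positivity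
    linarith
  have hHsq : Real.sqrt H * Real.sqrt H = H := Real.mul_self_sqrt (by positivity)
  set P := M ^ (1 - ε / 16) with hP
  have hP0 : 0 < P := by positivity
  have e1 : M ≤ 2 * P * H := by
    have h1 : M ≤ P * M ^ (ε / 4) := by
      rw [hP, ← Real.rpow_add hM0]
      nth_rewrite 1 [← Real.rpow_one M]
      exact Real.rpow_le_rpow_of_exponent_le hM (by linarith)
    nlinarith [mul_le_mul_of_nonneg_left hHge hP0.le]
  have e2 : M ^ (1 / 2 + ε / 4) ≤ P := Real.rpow_le_rpow_of_exponent_le hM (by linarith)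
  have e3 : M ^ (1 + ε / 16) ≤ 2 * P * Real.sqrt H := by
    have h1 : M ^ (1 + ε / 16) = P * M ^ (ε / 8) := by
      rw [hP, ← Real.rpow_add hM0]
      congr 1
      ring
    rw [h1]
    nlinarith [mul_le_mul_of_nonneg_left hsq hP0.le]
  have hH0 : (0 : ℝ) < H := by linarith
  have hs0 : 0 < Real.sqrt H := Real.sqrt_pos.2 hH0
  have hfin : (N.card : ℝ) * ((H : ℝ) ^ 2 / 4) ≤ ((16 + 96 * C) * P) * ((H : ℝ) ^ 2 / 4) := by
    calc (N.card : ℝ) * ((H : ℝ) ^ 2 / 4) ≤ H * (2 * M) +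
          2 * H * (H * (C * (4 * M ^ (1 / 2 + ε / 4))) +
          C * (2 * M ^ (1 + ε / 16)) * (2 * Real.sqrt H)) := by
          refine hcb.trans (add_le_add ?_ ?_)
          · exact mul_le_mul_of_nonneg_left hcard hH0.le
          · exact mul_le_mul_of_nonneg_left hSum (by positivity)
      _ ≤ H * (2 * (2 * P * H)) +
          2 * H * (H * (C * (4 * P)) +
          C * (2 * (2 * P * Real.sqrt H)) * (2 * Real.sqrt H)) := by
          gcongr
      _ = (4 * P + 8 * C * P) * (H : ℝ) ^ 2 + 16 * C * P * H * (Real.sqrt H * Real.sqrt H) := by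
          ring
      _ = ((16 + 96 * C) * P) * ((H : ℝ) ^ 2 / 4) := by
          rw [hHsq]
          ring
  exact le_of_mul_le_mul_right hfin (by positivity)

/-- no near integers: `δ` very small -/
theorem case1 (ε M r T K : ℝ) (n : ℤ) (hε : 0 < ε) (hε' : ε ≤ 1 / 100) (hM3 : 3 ≤ M)
    (hM : 384 / ε + 1 ≤ M ^ (ε / 16)) (hT : 1 ≤ T) (hT8 : 8 ≤ T ^ (ε / 4))
    (hr0 : T ^ (-1 + 3 * ε) ≤ r - 1) (hr : r - 1 < M ^ (-1 - ε / 8)) (Kint : ℤ) (hKint : K = Kint)
    (hK1 : M < K) (hK2 : K ≤ 2 * M) (h1 : |K ^ r - n| ≤ T ^ (-1 + 2 * ε) * K ^ r)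
    (h2 : T ^ (-1 + 2 * ε) * K ^ r ≤ T ^ (-(ε / 2))) : False := by
  have hM0 : 0 < M := by linarith
  have hK0 : 0 < K := by linarith
  have hT0 : 0 < T := by linarith
  have hlogK : 1 ≤ Real.log K := by
    rw [Real.le_log_iff_exp_le hK0]
    have := Real.exp_one_lt_d9
    linarith
  set δ := r - 1 with hδ
  have hδ0 : 0 < δ := lt_of_lt_of_le (by positivity) hr0
  -- `12 M^(-ε/8) log(2M) < 1`
  have hlog : 12 * (M ^ (-(ε / 8)) * Real.log (2 * M)) ≤ 1 := by
    have h3 : Real.log (2 * M) ≤ (2 * M) ^ (ε / 16) / (ε / 16) :=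
      Real.log_le_rpow_div (by positivity) (by positivity)
    have h4 : (2 * M) ^ (ε / 16) ≤ 2 * M ^ (ε / 16) := by
      rw [Real.mul_rpow (by norm_num) hM0.le]
      apply mul_le_mul_of_nonneg_right _ (by positivity)
      calc (2 : ℝ) ^ (ε / 16) ≤ 2 ^ (1 : ℝ) :=
            Real.rpow_le_rpow_of_exponent_le (by norm_num) (by linarith)
        _ = 2 := Real.rpow_one 2
    have h5 : M ^ (-(ε / 8)) = (M ^ (ε / 16) * M ^ (ε / 16))⁻¹ := by
      rw [← Real.rpow_add hM0, ← Real.rpow_neg hM0.le]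
      congr 1
      ring
    set Q := M ^ (ε / 16) with hQ
    have hQ0 : 0 < Q := by positivity
    calc 12 * (M ^ (-(ε / 8)) * Real.log (2 * M)) ≤ 12 * ((Q * Q)⁻¹ * (2 * Q / (ε / 16))) := by
          rw [h5]
          gcongr
          exact h3.trans (div_le_div_of_nonneg_right h4 (by positivity))
      _ = (384 / ε) / Q := by
          field_simp
          ring
      _ ≤ 1 := by
          rw [div_le_one hQ0]
          linarith
  have hlogK2 : Real.log K ≤ Real.log (2 * M) := Real.log_le_log hK0 hK2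
  -- `M δ log K ≤ 1/12`
  have hMd : M * δ * Real.log K ≤ 1 / 12 := by
    have h3 : M * M ^ (-1 - ε / 8) = M ^ (-(ε / 8)) := by
      nth_rewrite 1 [← Real.rpow_one M]
      rw [← Real.rpow_add hM0]
      congr 1
      ring
    have h4 : M * δ ≤ M ^ (-(ε / 8)) := by
      rw [← h3]
      exact mul_le_mul_of_nonneg_left hr.le hM0.le
    calc M * δ * Real.log K ≤ M ^ (-(ε / 8)) * Real.log (2 * M) :=
          mul_le_mul h4 hlogK2 (by linarith) (by positivity)
      _ ≤ 1 / 12 := by linarith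
  set y := δ * Real.log K with hy
  have hy0 : 0 < y := by positivity
  have hy1 : y ≤ 1 := by
    have : M * y ≤ 1 / 12 := by
      rw [hy]
      linarith [hMd, mul_assoc M δ (Real.log K)]
    nlinarith
  have hKr : K ^ r = K * Real.exp y := by
    have h3 : r = 1 + δ := by rw [hδ]; ring
    rw [h3, Real.rpow_add hK0, Real.rpow_one, Real.rpow_def_of_pos hK0 δ, hy, mul_comm δ]
  have hexp1 : y ≤ Real.exp y - 1 := by linarith [Real.add_one_le_exp y]
  have hexp2 : Real.exp y - 1 ≤ 2 * y := by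
    have h3 := Real.abs_exp_sub_one_le (x := y) (by rw [abs_of_pos hy0]; exact hy1)
    rw [abs_of_pos hy0] at h3
    exact (le_abs_self _).trans h3
  have hKy : K * y ≤ 1 / 6 := by
    have h3 : M * y ≤ 1 / 12 := by
      rw [hy]
      linarith [hMd, mul_assoc M δ (Real.log K)]
    nlinarith
  have hdiff1 : K * y ≤ K ^ r - K := by
    rw [hKr]
    nlinarith
  have hdiff2 : K ^ r - K ≤ 1 / 3 := by
    rw [hKr]
    nlinarith
  -- the bound `T^(-ε/2) ≤ 1/64`
  have hTs : T ^ (-(ε / 2)) ≤ 1 / 64 := by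
    have h3 : T ^ (-(ε / 2)) = (T ^ (ε / 4) * T ^ (ε / 4))⁻¹ := by
      rw [← Real.rpow_add hT0, ← Real.rpow_neg hT0.le]
      congr 1
      ring
    rw [h3, ← one_div]
    apply one_div_le_one_div_of_le (by norm_num)
    nlinarith
  have hn : n = Kint := by
    have h3 : |(n : ℝ) - Kint| < 1 := by
      have h4 := abs_le.1 (h1.trans (h2.trans hTs))
      have h5 : 0 < K * y := by positivity
      rw [← hKint, abs_lt]
      constructor <;> linarith [h4.1, h4.2]
    have h6 : |n - Kint| < 1 := by exact_mod_cast h3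
    have h7 := Int.abs_lt_one_iff.1 h6
    linarith
  have h8 : K ^ r - K ≤ T ^ (-1 + 2 * ε) * K ^ r := by
    have h9 := (le_abs_self _).trans h1
    rw [hn, ← hKint] at h9
    exact h9
  have h10 : K ^ r ≤ 3 * K := by
    rw [hKr]
    nlinarith
  have h11 : K * T ^ (-1 + 3 * ε) ≤ T ^ (-1 + 2 * ε) * (3 * K) := by
    calc K * T ^ (-1 + 3 * ε) ≤ K * y := by
          apply mul_le_mul_of_nonneg_left _ hK0.le
          rw [hy]
          calc T ^ (-1 + 3 * ε) ≤ δ := hr0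
            _ = δ * 1 := (mul_one _).symm
            _ ≤ δ * Real.log K := mul_le_mul_of_nonneg_left hlogK hδ0.le
      _ ≤ K ^ r - K := hdiff1
      _ ≤ T ^ (-1 + 2 * ε) * K ^ r := h8
      _ ≤ T ^ (-1 + 2 * ε) * (3 * K) := mul_le_mul_of_nonneg_left h10 (by positivity)
  have h12 : T ^ (-1 + 3 * ε) = T ^ (-1 + 2 * ε) * T ^ ε := by
    rw [← Real.rpow_add hT0]
    congr 1
    ring
  have h13 : 8 ≤ T ^ ε := hT8.trans (Real.rpow_le_rpow_of_exponent_le hT (by linarith))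
  rw [h12] at h11
  have h14 : 0 < T ^ (-1 + 2 * ε) * K := by positivity
  nlinarith

open scoped Classical in
/-- (CT) few integers `K` have a power `K^r` close to an integer. -/
theorem pf_CT (hVS : T_VS) : T_CT := by
  intro ε hε hε'
  obtain ⟨C, hC, hV⟩ := hVS 2 (by norm_num)
  obtain ⟨M1, hM1, hM1'⟩ : ∃ T₀ : ℝ, 1 ≤ T₀ ∧ ∀ T : ℝ, T₀ ≤ T → 384 / ε + 1 ≤ T ^ (ε / 16) := by
    have h := tendsto_rpow_atTop (show 0 < ε / 16 by positivity)
    obtain ⟨T₀, hT₀⟩ := Filter.eventually_atTop.1 (h.eventually_ge_atTop (384 / ε + 1))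
    exact ⟨max 1 T₀, le_max_left _ _, fun T hT => hT₀ T ((le_max_right _ _).trans hT)⟩
  obtain ⟨T1, hT1, hT1'⟩ : ∃ T₀ : ℝ, 1 ≤ T₀ ∧ ∀ T : ℝ, T₀ ≤ T → 8 ≤ T ^ (ε / 4) := by
    have h := tendsto_rpow_atTop (show 0 < ε / 4 by positivity)
    obtain ⟨T₀, hT₀⟩ := Filter.eventually_atTop.1 (h.eventually_ge_atTop 8)
    exact ⟨max 1 T₀, le_max_left _ _, fun T hT => hT₀ T ((le_max_right _ _).trans hT)⟩
  refine ⟨16 + 96 * C, max M1 3, T1, by positivity, le_max_of_le_left hM1, ?_⟩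
  intro T r M hT hr hr' hM hM'
  have hMM : M1 ≤ M := (le_max_left _ _).trans hM
  have hM3 : 3 ≤ M := (le_max_right _ _).trans hM
  have hM0 : 0 < M := by linarith
  have hT1g : 1 ≤ T := hT1.trans hT
  have hT0 : 0 < T := by linarith
  have hT8 := hT1' T hT
  have hMT := hM1' M hMM
  have hr1 : 1 < r := lt_of_lt_of_le (by
    have : 0 < T ^ (-1 + 3 * ε) := by positivity
    linarith) hr
  set F := (Finset.Icc 1 ⌊2 * M⌋₊).filter (fun K : ℕ => M < K ∧
      ∃ n : ℕ, |(K : ℝ) ^ r - n| ≤ T ^ (-1 + 2 * ε) * (K : ℝ) ^ r) with hF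
  -- the size of the admissible error
  have hstep : ∀ K : ℝ, M < K → K ≤ 2 * M → T ^ (-1 + 2 * ε) * K ^ r ≤ T ^ (-(ε / 2)) := by
    intro K hK1 hK2
    have hK0 : 0 < K := by linarith
    have h1 : K ^ r ≤ 4 * T ^ (1 - 11 * ε / 4) := by
      calc K ^ r ≤ (2 * T ^ (1 - 3 * ε)) ^ r := by
            apply Real.rpow_le_rpow hK0.le _ (by linarith)
            linarith
        _ = 2 ^ r * T ^ ((1 - 3 * ε) * r) := by
            rw [Real.mul_rpow (by norm_num) (by positivity), ← Real.rpow_mul hT0.le]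
        _ ≤ 4 * T ^ (1 - 11 * ε / 4) := by
            apply mul_le_mul _ _ (by positivity) (by norm_num)
            · calc (2 : ℝ) ^ r ≤ 2 ^ (2 : ℝ) :=
                    Real.rpow_le_rpow_of_exponent_le (by norm_num) (by linarith)
                _ = 4 := by norm_num
            · apply Real.rpow_le_rpow_of_exponent_le hT1g
              have h3 : (1 - 3 * ε) * r ≤ (1 - 3 * ε) * (1 + ε / 4) :=
                mul_le_mul_of_nonneg_left hr' (by linarith)
              nlinarith [mul_pos hε hε]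
    calc T ^ (-1 + 2 * ε) * K ^ r ≤ T ^ (-1 + 2 * ε) * (4 * T ^ (1 - 11 * ε / 4)) :=
          mul_le_mul_of_nonneg_left h1 (by positivity)
      _ = 4 * T ^ (-(3 * ε / 4)) := by
          rw [mul_left_comm, ← Real.rpow_add hT0]
          congr 2
          ring
      _ ≤ T ^ (ε / 4) * T ^ (-(3 * ε / 4)) := by
          apply mul_le_mul_of_nonneg_right _ (by positivity)
          linarith
      _ = T ^ (-(ε / 2)) := by
          rw [← Real.rpow_add hT0]
          congr 1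
          ring
  have hmem : ∀ K ∈ F, M < (K : ℝ) ∧ (K : ℝ) ≤ 2 * M ∧
      ∃ n : ℕ, |(K : ℝ) ^ r - n| ≤ T ^ (-1 + 2 * ε) * (K : ℝ) ^ r := by
    intro K hK
    rw [hF, Finset.mem_filter, Finset.mem_Icc] at hK
    refine ⟨hK.2.1, ?_, hK.2.2⟩
    calc (K : ℝ) ≤ ⌊2 * M⌋₊ := by exact_mod_cast hK.1.2
      _ ≤ 2 * M := Nat.floor_le (by positivity)
  by_cases hd : r - 1 < M ^ (-1 - ε / 8)
  · -- no near integers
    have hempty : F = ∅ := by
      rw [Finset.eq_empty_iff_forall_notMem]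
      intro K hK
      obtain ⟨h1, h2, n, hn⟩ := hmem K hK
      exact case1 ε M r T K (n : ℤ) hε hε' hM3 hMT hT1g hT8 (by linarith) hd (K : ℤ)
        (by push_cast; rfl) h1 h2 (by exact_mod_cast hn) (hstep K h1 h2)
    rw [hempty]
    simp only [Finset.card_empty, Nat.cast_zero]
    positivity
  · push Not at hd
    have hc := case2 C hC hV ε M r hε hε' (by linarith) hd hr'
      (F.map Nat.castEmbedding) (by
        intro K hK
        rw [Finset.mem_map] at hK
        obtain ⟨k, hk, rfl⟩ := hK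
        obtain ⟨h1, h2, _⟩ := hmem k hk
        rw [Finset.mem_Icc]
        constructor
        · have : ⌊M⌋ < (k : ℤ) := Int.floor_lt.2 (by push_cast; exact h1)
          simpa using this
        · exact Int.le_floor.2 (by simpa using h2)) (by
        intro K hK
        rw [Finset.mem_map] at hK
        obtain ⟨k, hk, rfl⟩ := hK
        obtain ⟨h1, h2, n, hn⟩ := hmem k hk
        refine ⟨(n : ℤ), ?_⟩
        have h3 : |(k : ℝ) ^ r - n| ≤ T ^ (-(ε / 2)) := hn.trans (hstep k h1 h2)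
        have h4 : T ^ (-(ε / 2)) ≤ 1 / (8 * (⌊M ^ (ε / 4)⌋₊ : ℕ)) := by
          have hX1 : (1 : ℝ) ≤ M ^ (ε / 4) := Real.one_le_rpow (by linarith) (by positivity)
          have hH1 : 1 ≤ ⌊M ^ (ε / 4)⌋₊ := Nat.le_floor (by simpa using hX1)
          have hH1r : (1 : ℝ) ≤ (⌊M ^ (ε / 4)⌋₊ : ℕ) := by exact_mod_cast hH1
          have hle : ((⌊M ^ (ε / 4)⌋₊ : ℕ) : ℝ) ≤ T ^ (ε / 4) := by
            refine (Nat.floor_le (by positivity)).trans ?_
            apply Real.rpow_le_rpow hM0.le _ (by positivity)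
            refine hM'.trans ?_
            nth_rewrite 2 [← Real.rpow_one T]
            exact Real.rpow_le_rpow_of_exponent_le hT1g (by linarith)
          rw [le_div_iff₀ (by positivity)]
          have h5 : T ^ (-(ε / 2)) * (T ^ (ε / 4) * T ^ (ε / 4)) = 1 := by
            rw [← Real.rpow_add hT0, ← Real.rpow_add hT0]
            have : -(ε / 2) + (ε / 4 + ε / 4) = 0 := by ring
            rw [this, Real.rpow_zero]
          rw [← h5]
          apply mul_le_mul_of_nonneg_left _ (by positivity)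
          exact mul_le_mul hT8 hle (by positivity) (by positivity)
        have h6 : ((Nat.castEmbedding k : ℤ) : ℝ) = (k : ℝ) := by simp
        rw [h6]
        push_cast
        exact h3.trans h4)
    rw [Finset.card_map] at hc
    exact hc

end Pool.Agent.H39.RU
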