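import Pool.Agent.H27.PZ.EX
import Pool.Agent.H47.RU.Targets

/-!
# Expansion of the cross term, uniformly in the dilation
-/

set_option autoImplicit false

open Complex MeasureTheory Set Filter Topology

namespace Pool.Agent.H39.RU

open Pool.Agent.H23.GLH (PrimChar)
open Pool.Agent.H28.MZ Pool.Agent.H47.RU Pool.Agent.H27.PZ

lemma cf_sd (χ ψ : PrimChar) (r η H M u : ℝ) (h l k : ℕ) :
    cf ψ r 0 η M l k * Sg χ (1 / 2 - η) H u (((k : ℝ) * l) ^ r / h) =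
      sd χ ψ r η H M u h l k := by
  have h0 : ei 0 = 1 := by simp [ei]
  rw [cf, sd, zero_mul, h0, mul_one]

/-- the comparison for one pair `(h, l)` -/
lemma hl_bound' (χ ψ : PrimChar) {r η H D M u T C δ Lb : ℝ} {h l : ℕ} (_hr1 : 0 < r)
    (hr2 : r < 2) (hM : 0 < M) (hT1 : 1 ≤ T) (hD : 0 ≤ D) (hη0 : 0 ≤ η)
    (hη : 0 ≤ 1 / 2 - r * η) (hδ : 0 ≤ δ)
    (hC0 : 0 ≤ C) (hV : ∀ y : ℝ, 0 < y → 0 ≤ V y ∧ V y ≤ 1)
    (hC : ∀ y : ℝ, 0 < y → V y ≤ C * y ^ (-(4 : ℝ))) (hh : 1 ≤ h) (hl : 1 ≤ l)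
    (hlT : (l : ℝ) ≤ T)
    (hLb : ∀ t ∈ Icc (u - D) (u + D), ‖χ.L (((1 / 2 - η : ℝ) : ℂ) + t * I)‖ ≤ Lb)
    (hGL : ∀ x : ℝ, 0 < x → ‖Ga H D u (fun t : ℝ => χ.L (((1 / 2 - η : ℝ) : ℂ) + t * I) *
      ei (t * Real.log x)) - Sg χ (1 / 2 - η) H u x‖ ≤ δ * (1 + x)) :
    (Summable fun k : ℕ => ‖sd χ ψ r η H M u h l k‖) ∧
    ‖Ga H D u (fun t => ∑' k, Fk χ ψ r 0 η M h l k t) - ∑' k : ℕ, sd χ ψ r η H M u h l k‖ ≤
      δ * (2 * T ^ 2) * (C * M ^ 4) * ∑' k : ℕ, 1 / (k : ℝ) ^ 2 := by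
  have hl1 : (1 : ℝ) ≤ l := by exact_mod_cast hl
  have hh1 : (1 : ℝ) ≤ h := by exact_mod_cast hh
  have hLb0 : 0 ≤ Lb := (norm_nonneg _).trans (hLb u ⟨by linarith, by linarith⟩)
  obtain ⟨s1, e1⟩ := Ga_tsum (H := H) (u := u) hD
    (f := fun k => Fk χ ψ r 0 η M h l k) (B := fun k : ℕ => C * M ^ 4 * (1 / (k : ℝ) ^ 4) * Lb)
    (fun k => Fk_continuous χ ψ r 0 hη0 M h l k) ((sum_four.mul_left _).mul_right _)
    (fun k t ht => by
      rw [Fk, norm_mul, norm_mul, ei_norm, mul_one]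
      exact mul_le_mul (cf_le ψ l k hM hη hC0 hV hC) (hLb t ht) (norm_nonneg _) (by positivity))
  have hGk : ∀ k, Ga H D u (Fk χ ψ r 0 η M h l k) = cf ψ r 0 η M l k *
      Ga H D u (fun t : ℝ => χ.L (((1 / 2 - η : ℝ) : ℂ) + t * I) *
        ei (t * Real.log (((k : ℝ) * l) ^ r / h))) := by
    intro k
    rw [← Ga_const_mul]
    rfl
  have hek : ∀ k : ℕ, ‖Ga H D u (Fk χ ψ r 0 η M h l k) -
      cf ψ r 0 η M l k * Sg χ (1 / 2 - η) H u (((k : ℝ) * l) ^ r / h)‖ ≤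
      δ * (2 * T ^ 2) * (C * M ^ 4) * (1 / (k : ℝ) ^ 2) := by
    intro k
    rw [hGk, ← mul_sub, norm_mul]
    rcases Nat.eq_zero_or_pos k with hk | hk
    · rw [hk, cf_zero, norm_zero, zero_mul]
      positivity
    · have hk1 : (1 : ℝ) ≤ k := by exact_mod_cast hk
      have hk0 : (0 : ℝ) < k := by linarith
      have hkl : (1 : ℝ) ≤ k * l := by nlinarith
      have hx : ((k : ℝ) * l) ^ r / h ≤ (k : ℝ) ^ 2 * T ^ 2 := by
        calc ((k : ℝ) * l) ^ r / h ≤ ((k : ℝ) * l) ^ r :=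
              div_le_self (by positivity) hh1
          _ ≤ ((k : ℝ) * l) ^ (2 : ℝ) := Real.rpow_le_rpow_of_exponent_le hkl hr2.le
          _ = (k : ℝ) ^ 2 * (l : ℝ) ^ 2 := by
              rw [show (2 : ℝ) = ((2 : ℕ) : ℝ) by norm_num, Real.rpow_natCast, mul_pow]
          _ ≤ (k : ℝ) ^ 2 * T ^ 2 := by gcongr
      have hkT : 1 ≤ (k : ℝ) ^ 2 * T ^ 2 := by
        have a1 : (1 : ℝ) ≤ (k : ℝ) ^ 2 := one_le_pow₀ hk1
        have a2 : (1 : ℝ) ≤ T ^ 2 := one_le_pow₀ hT1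
        nlinarith
      have h4 := (hGL _ (show 0 < ((k : ℝ) * l) ^ r / h by positivity)).trans
        (mul_le_mul_of_nonneg_left (show 1 + ((k : ℝ) * l) ^ r / h ≤ 2 * ((k : ℝ) ^ 2 * T ^ 2) by
          linarith) hδ)
      refine (mul_le_mul (cf_le ψ l k hM hη hC0 hV hC) h4 (norm_nonneg _)
        (by positivity)).trans (le_of_eq ?_)
      field_simp
  have s2 := Summable.of_norm_bounded (sum_two.mul_left (δ * (2 * T ^ 2) * (C * M ^ 4))) hek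
  have s3 : Summable fun k : ℕ =>
      cf ψ r 0 η M l k * Sg χ (1 / 2 - η) H u (((k : ℝ) * l) ^ r / h) := by
    have := s1.sub s2
    refine this.congr fun k => ?_
    ring
  have s4 : Summable fun k : ℕ => sd χ ψ r η H M u h l k := by
    refine s3.congr fun k => ?_
    rw [cf_sd]
  refine ⟨summable_norm_iff.2 s4, ?_⟩
  have hKt : ∑' k : ℕ, sd χ ψ r η H M u h l k =
      ∑' k : ℕ, cf ψ r 0 η M l k * Sg χ (1 / 2 - η) H u (((k : ℝ) * l) ^ r / h) :=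
    tsum_congr fun k => (cf_sd χ ψ r η H M u h l k).symm
  rw [e1, hKt, ← s1.tsum_sub s3, ← tsum_mul_left]
  exact tsum_of_norm_bounded (sum_two.mul_left _).hasSum hek

lemma num1' {T B : ℝ} (hB : 1 ≤ B) (hT1 : 1 ≤ T) (hT : 4 * 3 ^ 9 * (2 * B) ^ 20 ≤ T) :
    (3 * T) ^ 9 * T * T * (1 / (T / (2 * B)) ^ 20) ≤ 1 / (4 * T) := by
  have hT0 : 0 < T := by linarith
  have hB0 : 0 < B := by linarith
  have h1 : (3 * T) ^ 9 * T * T * (1 / (T / (2 * B)) ^ 20) = 3 ^ 9 * (2 * B) ^ 20 / T ^ 9 := by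
    field_simp
  have h2 : T ≤ T ^ 8 := le_self_pow₀ hT1 (by norm_num)
  rw [h1, div_le_div_iff₀ (by positivity) (by positivity)]
  calc 3 ^ 9 * (2 * B) ^ 20 * (4 * T) = (4 * 3 ^ 9 * (2 * B) ^ 20) * T := by ring
    _ ≤ T ^ 8 * T := mul_le_mul_of_nonneg_right (hT.trans h2) hT0.le
    _ = 1 * T ^ 9 := by ring

lemma num2' {T ε C Z : ℝ} (hT1 : 1 ≤ T) (hε : ε ≤ 1 / 10) (hC : 0 ≤ C) (hZ : 0 ≤ Z)
    (hT : 4 * C * Z ≤ T) :
    T * T * (T ^ (-(12 : ℝ)) * (2 * T ^ 2) * (C * (T ^ (1 + ε)) ^ 4) * Z) ≤ 1 / (2 * T) := by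
  have hT0 : 0 < T := by linarith
  have h1 : (T ^ (1 + ε)) ^ 4 ≤ T ^ 5 := by
    rw [← Real.rpow_natCast (T ^ (1 + ε)) 4, ← Real.rpow_mul hT0.le, ← Real.rpow_natCast T 5]
    refine Real.rpow_le_rpow_of_exponent_le hT1 ?_
    push_cast
    linarith
  have h2 : T ^ (-(12 : ℝ)) = 1 / T ^ 12 := by
    rw [Real.rpow_neg hT0.le, show (12 : ℝ) = ((12 : ℕ) : ℝ) by norm_num, Real.rpow_natCast,
      one_div]
  rw [h2]
  calc T * T * (1 / T ^ 12 * (2 * T ^ 2) * (C * (T ^ (1 + ε)) ^ 4) * Z)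
      ≤ T * T * (1 / T ^ 12 * (2 * T ^ 2) * (C * T ^ 5) * Z) := by gcongr
    _ = (4 * C * Z) * (1 / (2 * T ^ 3)) := by
        field_simp
        ring
    _ ≤ T * (1 / (2 * T ^ 3)) := mul_le_mul_of_nonneg_right hT (by positivity)
    _ = 1 / (2 * T ^ 2) := by field_simp
    _ ≤ 1 / (2 * T) := by
        apply one_div_le_one_div_of_le (by positivity)
        nlinarith

theorem pf_EU (hSM : T_SM) (hGL : T_GL) (hVV : T_VV) : T_EU := by
  intro χ ψ B ε R hB hε hε10 hR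
  obtain ⟨T₁, hT₁1, hgr⟩ := growth hSM hVV χ
  obtain ⟨hV, -, -, hV4, -⟩ := hVV
  obtain ⟨C, hC0, hC⟩ := hV4 4 (by norm_num)
  obtain ⟨T₂, hT₂⟩ := hSM ψ (ε / 2) 20 (by linarith) (by linarith) (by norm_num)
  obtain ⟨T₃, hT₃⟩ := hGL χ ε 12 hε (by linarith) (by norm_num)
  obtain ⟨Z, hZ⟩ : ∃ Z : ℝ, Z = ∑' k : ℕ, 1 / (k : ℝ) ^ 2 := ⟨_, rfl⟩
  have hZ0 : 0 ≤ Z := hZ ▸ tsum_nonneg fun k => by positivity
  have hB0 : 0 < B := by linarith
  have ev : ∀ᶠ T : ℝ in atTop, ((4 * 3 ^ 9 * (2 * B) ^ 20 ≤ T ∧ 2 * T₁ ≤ T) ∧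
      (2 * B * T₂ ≤ T ∧ T₃ ≤ T) ∧
      4 * C * Z ≤ T ∧ 8 * B ^ 3 ≤ T) ∧ 8 * R ≤ Real.log T ∧ 25 ≤ T ^ (ε / 2) := by
    refine (((eventually_ge_atTop _).and (eventually_ge_atTop _)).and
      (((eventually_ge_atTop _).and (eventually_ge_atTop _)).and
        ((eventually_ge_atTop _).and (eventually_ge_atTop _)))).and
      ((Real.tendsto_log_atTop.eventually_ge_atTop _).and
        ((tendsto_rpow_atTop (by linarith)).eventually_ge_atTop _))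
  obtain ⟨T₀, hT₀⟩ := eventually_atTop.1 ev
  refine ⟨T₀, fun T u r η b₁ b₂ Y₁ Y₂ hT hTu huT hrB hr32 hη0 hηR hb₁ hb₂ hY₁ hY₂ => ?_⟩
  obtain ⟨⟨⟨c1, c2⟩, ⟨c3, c4⟩, c5, c8⟩, c6, c7⟩ := hT₀ T hT
  have hB3 : 1 ≤ B ^ 3 := one_le_pow₀ hB
  have hT8 : 8 ≤ T := by linarith
  have hT1 : 1 ≤ T := by linarith
  have hTpos : 0 < T := by linarith
  have hlog : 0 < Real.log T := by linarith
  have hr0 : 0 < r := lt_of_lt_of_le (by positivity) hrB
  obtain ⟨M, hM⟩ : ∃ M : ℝ, M = T ^ (1 + ε) := ⟨_, rfl⟩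
  obtain ⟨H, hH⟩ : ∃ H : ℝ, H = T ^ (1 - ε) := ⟨_, rfl⟩
  have hη8 : η ≤ 1 / 8 := by
    refine hηR.trans ?_
    rw [div_le_iff₀ hlog]
    linarith
  have hrη : r * η ≤ 1 / 4 := by
    calc r * η ≤ 2 * (1 / 8) := mul_le_mul (by linarith) hη8 hη0 (by norm_num)
      _ = 1 / 4 := by norm_num
  have hrη0 : 0 ≤ r * η := by positivity
  have hM0 : 0 < M := by rw [hM]; positivity
  have hH0 : 0 < H := by rw [hH]; positivity
  have hwin : ∀ t ∈ Icc (u - T / 4) (u + T / 4), 3 / 4 * T ≤ t ∧ t ≤ 9 / 4 * T := by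
    intro t ht
    exact ⟨by linarith [ht.1], by linarith [ht.2]⟩
  have hv : ∀ t ∈ Icc (u - T / 4) (u + T / 4), T / (2 * B) ≤ r * t + 0 ∧ r * t + 0 ≤ 5 * T := by
    intro t ht
    obtain ⟨h1, h2⟩ := hwin t ht
    have ht0 : 0 ≤ t := by linarith
    have h3 : (1 / B) * t ≤ r * t := mul_le_mul_of_nonneg_right hrB ht0
    have h4 : r * t ≤ 3 / 2 * t := mul_le_mul_of_nonneg_right hr32 ht0
    have h5 : T / (2 * B) ≤ (1 / B) * t := by
      rw [div_le_iff₀ (by positivity)]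
      have : 1 / B * t * (2 * B) = 2 * t := by field_simp
      rw [this]
      linarith
    exact ⟨by linarith, by linarith⟩
  have hLb : ∀ t ∈ Icc (u - T / 4) (u + T / 4),
      ‖χ.L (((1 / 2 - η : ℝ) : ℂ) + t * I)‖ ≤ (3 * T) ^ 9 := by
    intro t ht
    obtain ⟨h1, h2⟩ := hwin t ht
    refine (hgr t (1 / 2 - η) (by linarith) (by linarith) (by linarith)).trans ?_
    exact pow_le_pow_left₀ (by linarith) (by linarith) 9
  have hTB : 0 < T / (2 * B) := by positivity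
  have hSMb : ∀ t ∈ Icc (u - T / 4) (u + T / 4),
      ‖ψ.L (((1 / 2 - r * η : ℝ) : ℂ) + ((r * t + 0 : ℝ) : ℂ) * I) - ∑' k : ℕ, co ψ k *
        (k : ℂ) ^ (-(((1 / 2 - r * η : ℝ) : ℂ) + ((r * t + 0 : ℝ) : ℂ) * I)) *
          ((V (k / M) : ℝ) : ℂ)‖ ≤ 1 / (T / (2 * B)) ^ 20 := by
    intro t ht
    obtain ⟨h1, h2⟩ := hv t ht
    have hv0 : 0 < r * t + 0 := by linarith
    have hT2' : T₂ ≤ T / (2 * B) := by
      rw [le_div_iff₀ (by positivity)]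
      linarith
    refine (hT₂ (r * t + 0) (1 / 2 - r * η) M (by linarith) (by linarith) (by linarith) ?_
      ?_).trans ?_
    · calc (r * t + 0) ^ (1 + ε / 2) ≤ (5 * T) ^ (1 + ε / 2) :=
            Real.rpow_le_rpow hv0.le h2 (by linarith)
        _ = 5 ^ (1 + ε / 2) * T ^ (1 + ε / 2) := Real.mul_rpow (by norm_num) hTpos.le
        _ ≤ 5 ^ (2 : ℝ) * T ^ (1 + ε / 2) := by
            refine mul_le_mul_of_nonneg_right ?_ (by positivity)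
            exact Real.rpow_le_rpow_of_exponent_le (by norm_num) (by linarith)
        _ ≤ T ^ (ε / 2) * T ^ (1 + ε / 2) := by
            refine mul_le_mul_of_nonneg_right ?_ (by positivity)
            refine le_trans (le_of_eq ?_) c7
            rw [show (2 : ℝ) = ((2 : ℕ) : ℝ) by norm_num, Real.rpow_natCast]
            norm_num
        _ = M := by
            rw [hM, ← Real.rpow_add hTpos]
            congr 1
            ring
    · calc M ≤ T ^ (2 : ℝ) := by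
            rw [hM]
            exact Real.rpow_le_rpow_of_exponent_le hT1 (by linarith)
        _ = T ^ 2 := by rw [show (2 : ℝ) = ((2 : ℕ) : ℝ) by norm_num, Real.rpow_natCast]
        _ ≤ (T / (2 * B)) ^ 3 := by
            rw [div_pow, le_div_iff₀ (by positivity)]
            have h6 : T ^ 2 * (2 * B) ^ 3 = T ^ 2 * (8 * B ^ 3) := by ring
            rw [h6]
            calc T ^ 2 * (8 * B ^ 3) ≤ T ^ 2 * T := mul_le_mul_of_nonneg_left c8 (by positivity)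
              _ = T ^ 3 := by ring
        _ ≤ (r * t + 0) ^ 3 := pow_le_pow_left₀ hTB.le h1 3
        _ = (r * t + 0) ^ (3 : ℝ) := by
            rw [show (3 : ℝ) = ((3 : ℕ) : ℝ) by norm_num, Real.rpow_natCast]
    · rw [Real.rpow_neg hv0.le, show (20 : ℝ) = ((20 : ℕ) : ℝ) by norm_num, Real.rpow_natCast,
        ← one_div]
      exact one_div_le_one_div_of_le (by positivity) (pow_le_pow_left₀ hTB.le h1 20)
  have hU : ∀ t : ℝ, gl χ b₁ Y₁ 1 η t * (starRingEnd ℂ) (gl ψ b₂ Y₂ r η t) =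
      χ.L (((1 / 2 - η : ℝ) : ℂ) + t * I) * Bf χ b₁ Y₁ (((1 / 2 + η : ℝ) : ℂ) + t * I) *
        (starRingEnd ℂ) (Bf ψ b₂ Y₂
          (((1 / 2 + r * η : ℝ) : ℂ) + ((r * t + 0 : ℝ) : ℂ) * I)) *
        (starRingEnd ℂ) (ψ.L (((1 / 2 - r * η : ℝ) : ℂ) + ((r * t + 0 : ℝ) : ℂ) * I)) := by
    intro t
    rw [gl, gl, one_mul, one_mul, add_zero, map_mul]
    ring
  obtain ⟨q, hq⟩ : ∃ q : ℕ → ℕ → ℂ, q = qc χ ψ r η b₁ b₂ := ⟨_, rfl⟩
  have hqd : ∀ h l : ℕ, qd χ ψ r η b₁ b₂ h l = q h l := by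
    intro h l
    rw [hq]
    rfl
  obtain ⟨mn, hmn⟩ : ∃ mn : ℝ → ℂ, mn = fun t => ∑ h ∈ Finset.Icc 1 Y₁,
    ∑ l ∈ Finset.Icc 1 Y₂, q h l * ∑' k, Fk χ ψ r 0 η M h l k t := ⟨_, rfl⟩
  obtain ⟨g, hg⟩ : ∃ g : ℝ → ℂ, g = fun t : ℝ => gl χ b₁ Y₁ 1 η t *
      (starRingEnd ℂ) (gl ψ b₂ Y₂ r η t) := ⟨_, rfl⟩
  have hFc : ∀ h l : ℕ, Continuous fun t => ∑' k, Fk χ ψ r 0 η M h l k t := fun h l =>
    tsum_Fk_continuous χ ψ h l hM0 hη0 (by linarith) hC0.le hV hC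
  have hmc : Continuous mn := by
    rw [hmn]
    exact continuous_finsetSum _ fun h _ => continuous_finsetSum _ fun l _ =>
      continuous_const.mul (hFc h l)
  have hgc : Continuous g := by
    rw [hg]
    simp only [hU]
    refine ((((L_line_continuous χ (a := 1 / 2 - η) (by linarith) (v := fun t => t)
      continuous_id).mul (Bf_line_continuous χ _ _ _ (v := fun t => t) continuous_id)).mul
      (Complex.continuous_conj.comp (Bf_line_continuous ψ _ _ _ (v := fun t => r * t + 0)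
        (by fun_prop)))).mul (Complex.continuous_conj.comp
        (L_line_continuous ψ (a := 1 / 2 - r * η) (by linarith) (v := fun t => r * t + 0)
          (by fun_prop))))
  have hE : ∀ t ∈ Icc (u - T / 4) (u + T / 4), ‖g t - mn t‖ ≤ 1 / (4 * T) := by
    intro t ht
    have e1 : g t - mn t = χ.L (((1 / 2 - η : ℝ) : ℂ) + t * I) *
        Bf χ b₁ Y₁ (((1 / 2 + η : ℝ) : ℂ) + t * I) *
        (starRingEnd ℂ) (Bf ψ b₂ Y₂
          (((1 / 2 + r * η : ℝ) : ℂ) + ((r * t + 0 : ℝ) : ℂ) * I)) *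
        (starRingEnd ℂ) (ψ.L (((1 / 2 - r * η : ℝ) : ℂ) + ((r * t + 0 : ℝ) : ℂ) * I) -
          ∑' k : ℕ, co ψ k *
        (k : ℂ) ^ (-(((1 / 2 - r * η : ℝ) : ℂ) + ((r * t + 0 : ℝ) : ℂ) * I)) *
          ((V (k / M) : ℝ) : ℂ)) := by
      rw [hg, hmn, hq]
      simp only []
      rw [hU, main_eq, map_sub]
      ring
    rw [e1, norm_mul, norm_mul, norm_mul, RCLike.norm_conj, RCLike.norm_conj]
    have n1 := hLb t ht
    have n2 := (Bf_norm χ hb₁ Y₁ (show 0 ≤ 1 / 2 + η by linarith) t).trans hY₁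
    have n3 := (Bf_norm ψ hb₂ Y₂ (show 0 ≤ 1 / 2 + r * η by linarith) (r * t + 0)).trans hY₂
    have n4 := hSMb t ht
    refine le_trans ?_ (num1' hB hT1 c1)
    exact mul_le_mul (mul_le_mul (mul_le_mul n1 n2 (norm_nonneg _) (by positivity)) n3
      (norm_nonneg _) (by positivity)) n4 (norm_nonneg _) (by positivity)
  have hGaE := Ga_norm_le hH0 (show 0 ≤ T / 4 by linarith) (hgc.sub hmc) hE
  have hGag : Ga H (T / 4) u g = Ga H (T / 4) u (fun t => g t - mn t) + Ga H (T / 4) u mn := by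
    have h1 : (fun t => g t - mn t + mn t) = g := by
      funext t
      ring
    rw [← Ga_add (f := fun t => g t - mn t) (g := mn) (hgc.sub hmc) hmc, h1]
  have hGam : Ga H (T / 4) u mn = ∑ h ∈ Finset.Icc 1 Y₁, ∑ l ∈ Finset.Icc 1 Y₂,
      q h l * Ga H (T / 4) u (fun t => ∑' k, Fk χ ψ r 0 η M h l k t) := by
    rw [hmn, Ga_sum (f := fun h t => ∑ l ∈ Finset.Icc 1 Y₂, q h l *
      ∑' k, Fk χ ψ r 0 η M h l k t) _ fun h _ => continuous_finsetSum _ fun l _ =>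
      continuous_const.mul (hFc h l)]
    refine Finset.sum_congr rfl fun h _ => ?_
    rw [Ga_sum (f := fun l t => q h l * ∑' k, Fk χ ψ r 0 η M h l k t) _ fun l _ =>
      continuous_const.mul (hFc h l)]
    refine Finset.sum_congr rfl fun l _ => ?_
    rw [Ga_const_mul]
  have hpair : ∀ h l : ℕ, 1 ≤ h → h ≤ Y₁ → 1 ≤ l → l ≤ Y₂ →
      (Summable fun k : ℕ => ‖sd χ ψ r η H M u h l k‖) ∧
      ‖Ga H (T / 4) u (fun t => ∑' k, Fk χ ψ r 0 η M h l k t) -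
        ∑' k : ℕ, sd χ ψ r η H M u h l k‖ ≤
      T ^ (-(12 : ℝ)) * (2 * T ^ 2) * (C * M ^ 4) * Z := by
    intro h l h1 h2 l1 l2
    have hlT : (l : ℝ) ≤ T := le_trans (Nat.cast_le.2 l2) hY₂
    have h1 := hl_bound' χ ψ (r := r) (η := η) (H := H) (D := T / 4) (M := M) (u := u)
      (T := T) (C := C) (δ := T ^ (-(12 : ℝ))) hr0 (by linarith) hM0 hT1 (by linarith) hη0
      (by linarith)
      (by positivity) hC0.le hV hC h1 l1 hlT hLb (fun x hx => by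
        rw [hH]
        exact hT₃ T u (1 / 2 - η) x c4 hTu huT (by linarith) (by linarith) hx)
    rw [← hZ] at h1
    exact h1
  rw [← hH, ← hM]
  refine ⟨fun h l h1 h2 l1 l2 => (hpair h l h1 h2 l1 l2).1, ?_⟩
  have hdiff : ∀ h ∈ Finset.Icc 1 Y₁, ∀ l ∈ Finset.Icc 1 Y₂,
      ‖q h l * Ga H (T / 4) u (fun t => ∑' k, Fk χ ψ r 0 η M h l k t) -
        q h l * ∑' k : ℕ, sd χ ψ r η H M u h l k‖ ≤
      T ^ (-(12 : ℝ)) * (2 * T ^ 2) * (C * M ^ 4) * Z := by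
    intro h hh l hl
    rw [Finset.mem_Icc] at hh hl
    rw [← mul_sub, norm_mul, hq]
    exact (mul_le_of_le_one_left (norm_nonneg _)
      (qc_norm χ ψ hb₁ hb₂ hη0 hr0.le hh.1 hl.1)).trans (hpair h l hh.1 hh.2 hl.1 hl.2).2
  have hfin : ‖Ga H (T / 4) u mn - ∑ h ∈ Finset.Icc 1 Y₁, ∑ l ∈ Finset.Icc 1 Y₂,
      q h l * ∑' k : ℕ, sd χ ψ r η H M u h l k‖ ≤ 1 / (2 * T) := by
    rw [hGam, ← Finset.sum_sub_distrib]
    have hb0 : 0 ≤ T ^ (-(12 : ℝ)) * (2 * T ^ 2) * (C * M ^ 4) * Z := by positivity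
    calc _ ≤ ∑ h ∈ Finset.Icc 1 Y₁, ∑ l ∈ Finset.Icc 1 Y₂,
          T ^ (-(12 : ℝ)) * (2 * T ^ 2) * (C * M ^ 4) * Z := by
          refine norm_sum_le_of_le _ fun h hh => ?_
          rw [← Finset.sum_sub_distrib]
          exact norm_sum_le_of_le _ fun l hl => hdiff h hh l hl
      _ = (Y₁ : ℝ) * Y₂ * (T ^ (-(12 : ℝ)) * (2 * T ^ 2) * (C * M ^ 4) * Z) := by
          rw [Finset.sum_const, Finset.sum_const, Nat.card_Icc, Nat.card_Icc, nsmul_eq_mul,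
            nsmul_eq_mul, Nat.add_sub_cancel, Nat.add_sub_cancel]
          ring
      _ ≤ T * T * (T ^ (-(12 : ℝ)) * (2 * T ^ 2) * (C * M ^ 4) * Z) := by
          refine mul_le_mul_of_nonneg_right ?_ hb0
          exact mul_le_mul hY₁ hY₂ (Nat.cast_nonneg _) hTpos.le
      _ ≤ 1 / (2 * T) := by
          rw [hM]
          exact num2' hT1 hε10 hC0.le hZ0 c5
  have hgoal : ‖Ga H (T / 4) u g - ∑ h ∈ Finset.Icc 1 Y₁, ∑ l ∈ Finset.Icc 1 Y₂,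
      q h l * ∑' k : ℕ, sd χ ψ r η H M u h l k‖ ≤ 1 / T := by
    rw [hGag, add_sub_assoc]
    refine (norm_add_le _ _).trans ?_
    have h1 : ‖Ga H (T / 4) u (fun t => g t - mn t)‖ ≤ 1 / (4 * T) := hGaE
    have h2 : 1 / T = 1 / (4 * T) + 1 / (2 * T) + 1 / (4 * T) := by
      field_simp
      norm_num
    have h3 : 0 < 1 / (4 * T) := by positivity
    linarith
  rw [hg] at hgoal
  simp only [hqd]
  exact hgoal

end Pool.Agent.H39.RU
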