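import Pool.Agent.H76.PZ.E2
import Pool.Agent.H47.RU.Targets

/-!
# The second moment, uniformly in the dilation
-/

set_option autoImplicit false

open Complex MeasureTheory Set Filter Topology

namespace Pool.Agent.H39.RU

open Pool.Agent.H23.GLH (PrimChar)
open Pool.Agent.H28.MZ Pool.Agent.H47.RU Pool.Agent.H76.PZ

theorem pf_SQ (hXA : T_XA) (hMM : T_MM) (hUB : T_UB) : T_SQ := by
  intro ψ A θ R hA hθ hθ4 hR
  have := ψ.q_ne
  have hq1 : 1 ≤ ψ.q := Nat.one_le_iff_ne_zero.2 (NeZero.ne _)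
  have hq1' : (1 : ℝ) ≤ ψ.q := by exact_mod_cast hq1
  obtain ⟨CX, hCX, hX⟩ := hXA ψ
  obtain ⟨N₀, hN₀⟩ := hMM ψ (1 / 8) (by norm_num) (by norm_num)
  set N : ℕ := max N₀ 1 with hN
  have hNN₀ : N₀ ≤ N := le_max_left _ _
  have hN1 : 1 ≤ N := le_max_right _ _
  obtain ⟨CU, hCU, hU⟩ := hUB N hN1
  obtain ⟨C, δ, σ₁, hC, hδ, hσ₁, hM⟩ := hN₀ N hNN₀
  have hA0 : 0 < A := by linarith
  have hR0 : 0 < R := by linarith
  have hev : ∀ᶠ T : ℝ in atTop, (2 * A) ^ 3 ≤ T ∧ ψ.q * A ≤ T ∧ A * R / Real.log T < σ₁ - 1 / 2 ∧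
      A * R / Real.log T < 1 / 4 ∧ 2 ≤ T := by
    filter_upwards [eventually_ge_atTop ((2 * A) ^ 3), eventually_ge_atTop (ψ.q * A),
      (tendsto_div_log (A * R)).eventually_lt_const (by linarith : (0 : ℝ) < σ₁ - 1 / 2),
      (tendsto_div_log (A * R)).eventually_lt_const (by norm_num : (0 : ℝ) < 1 / 4),
      eventually_ge_atTop 2] with T h1 h2 h3 h4 h5
    exact ⟨h1, h2, h3, h4, h5⟩
  obtain ⟨T₀, hT₀⟩ := eventually_atTop.1 hev
  refine ⟨(1 + CX) * Real.exp (4 * A * R) * (CU * (7 / 2) * (2 + C)), T₀, by positivity, ?_⟩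
  intro T r b hT hr hr' hb hzq
  obtain ⟨t1, t2, t3, t4, t5⟩ := hT₀ T hT
  have hT0 : 0 < T := by linarith
  have hT1 : 1 < T := by linarith
  have hlog : 0 < Real.log T := Real.log_pos hT1
  have hr0 : 0 < r := lt_of_lt_of_le (by positivity) hr
  set η : ℝ := R / Real.log T with hη
  have hη0 : 0 < η := by positivity
  have hrη0 : 0 < r * η := by positivity
  have hrηA : r * η ≤ A * R / Real.log T := by
    rw [hη, mul_div_assoc]
    exact mul_le_mul_of_nonneg_right hr' (by positivity)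
  have hrT : 1 ≤ r * (T / 2) := by
    have h1 : (1 / A) * (T / 2) ≤ r * (T / 2) := mul_le_mul_of_nonneg_right hr (by positivity)
    have h2 : 1 ≤ (1 / A) * (T / 2) := by
      have h3 : (1 / A) * (T / 2) = T / (2 * A) := by field_simp
      rw [h3, le_div_iff₀ (by positivity)]
      have h4 : 2 * A ≤ (2 * A) ^ 3 := le_self_pow₀ (by linarith) (by norm_num)
      linarith
    linarith
  have hrTA : T / (2 * A) ≤ r * (T / 2) := by
    have h1 : (1 / A) * (T / 2) ≤ r * (T / 2) := mul_le_mul_of_nonneg_right hr (by positivity)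
    have h3 : (1 / A) * (T / 2) = T / (2 * A) := by field_simp
    linarith
  set Y : ℕ := ⌊T ^ θ⌋₊ with hY
  have hYle : (Y : ℝ) ≤ T ^ θ := Nat.floor_le (by positivity)
  -- the mollified square on the right
  set f : ℝ → ℝ := fq ψ b Y (1 / 2 + r * η) with hf
  have hfc : Continuous f := fq_cont ψ b Y (by linarith)
  have hf0 : ∀ t, 0 ≤ f t := fq_nonneg ψ b Y _
  have hW : ∀ u : ℝ, r * (T / 2) ≤ u → IntegrableOn (fun t : ℝ => W N u t * f t) (Ioi 0) ∧
      (∫ t in Ioi (0 : ℝ), W N u t * f t) ≤ u * (2 + C) := by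
    intro u hu
    have hu1 : 1 ≤ u := hrT.trans hu
    have hu0 : 0 < u := by linarith
    have hYu : (Y : ℝ) ≤ u ^ ((1 : ℝ) / 2 - 1 / 8) := by
      have h1 : T ^ (1 / 4 : ℝ) ≤ (T / (2 * A)) ^ ((1 : ℝ) / 2 - 1 / 8) := by
        rw [Real.div_rpow hT0.le (by positivity), le_div_iff₀ (by positivity)]
        have h2 : (2 * A) ^ ((1 : ℝ) / 2 - 1 / 8) ≤ T ^ (1 / 8 : ℝ) := by
          have h3 : (2 * A) ^ ((1 : ℝ) / 2 - 1 / 8) = ((2 * A) ^ 3) ^ (1 / 8 : ℝ) := by
            rw [← Real.rpow_natCast (2 * A) 3, ← Real.rpow_mul (by positivity)]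
            congr 1
            norm_num
          rw [h3]
          exact Real.rpow_le_rpow (by positivity) t1 (by norm_num)
        calc T ^ (1 / 4 : ℝ) * (2 * A) ^ ((1 : ℝ) / 2 - 1 / 8) ≤
              T ^ (1 / 4 : ℝ) * T ^ (1 / 8 : ℝ) := mul_le_mul_of_nonneg_left h2 (by positivity)
          _ = T ^ ((1 : ℝ) / 2 - 1 / 8) := by
              rw [← Real.rpow_add hT0]
              congr 1
              norm_num
      calc (Y : ℝ) ≤ T ^ θ := hYle
        _ ≤ T ^ (1 / 4 : ℝ) := Real.rpow_le_rpow_of_exponent_le hT1.le hθ4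
        _ ≤ _ := h1
        _ ≤ _ := Real.rpow_le_rpow (by positivity) (hrTA.trans hu) (by norm_num)
    obtain ⟨g1, g2⟩ := hM (1 / 2 + r * η) u b Y (by linarith) (by linarith) hu1 hb hYu
    refine ⟨g1, ?_⟩
    have e2 : 2 * (1 / 2 + r * η) = 1 + 2 * (r * η) := by ring
    rw [e2] at g2
    have g2' : (∫ t in Ioi (0 : ℝ), W N u t * f t) ≤
        u * (zq ψ.q (1 + 2 * (r * η)) * Qf b Y (1 + 2 * (r * η)) + C * u ^ (-δ)) := g2
    refine g2'.trans (mul_le_mul_of_nonneg_left ?_ hu0.le)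
    have h5 : u ^ (-δ) ≤ 1 := Real.rpow_le_one_of_one_le_of_nonpos hu1 (by linarith)
    have h6 : C * u ^ (-δ) ≤ C := mul_le_of_le_one_right hC.le h5
    linarith
  have hQ0 : 0 ≤ 2 + C := by linarith
  have key : ∀ u : ℝ, r * (T / 2) ≤ u → ∫ t in u..(2 * u), f t ≤ CU * u * (2 + C) := fun u hu =>
    hU u (2 + C) f (by linarith) hQ0 hfc hf0 (hW u hu).1 (hW u hu).2
  have hi : ∀ a b : ℝ, IntervalIntegrable f volume a b := fun a b => hfc.intervalIntegrable a b
  have hrT0 : 0 < r * T := by positivity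
  have hfint : ∫ t in (r * (T / 2))..(4 * (r * T)), f t ≤ CU * (7 / 2 * (r * T)) * (2 + C) := by
    have k1 := key (r * (T / 2)) le_rfl
    have k2 := key (r * T) (by nlinarith)
    have k3 := key (2 * (r * T)) (by nlinarith)
    have e1 : 2 * (r * (T / 2)) = r * T := by ring
    have e3 : 2 * (2 * (r * T)) = 4 * (r * T) := by ring
    rw [e1] at k1
    rw [e3] at k3
    rw [← intervalIntegral.integral_add_adjacent_intervals (hi (r * (T / 2)) (r * T))
      (hi (r * T) (4 * (r * T))),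
      ← intervalIntegral.integral_add_adjacent_intervals (hi (r * T) (2 * (r * T)))
      (hi (2 * (r * T)) (4 * (r * T)))]
    have e6 : CU * (7 / 2 * (r * T)) * (2 + C) = CU * (r * (T / 2)) * (2 + C) +
      (CU * (r * T) * (2 + C) + CU * (2 * (r * T)) * (2 + C)) := by ring
    rw [e6]
    linarith
  -- the left side
  set g : ℝ → ℝ := fun t => ‖ψ.L ((1 / 2 - r * η : ℝ) + t * I) *
    Bf ψ b Y ((1 / 2 + r * η : ℝ) + t * I)‖ ^ 2 with hg
  have hgc : Continuous g := by
    refine Continuous.pow (Continuous.norm ?_) 2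
    refine (L_cont ψ (by linarith)).mul ?_
    exact (Bf_cont ψ b Y).comp (by fun_prop)
  have hg0 : ∀ t, 0 ≤ g t := fun t => by simp only [hg]; positivity
  have hgf : ∀ t : ℝ, r * (T / 2) ≤ t → t ≤ r * (3 * T) →
      g t ≤ (1 + CX) * Real.exp (4 * A * R) * f t := by
    intro t h1 h2
    have ht1 : 1 ≤ t := hrT.trans h1
    have ht0 : 0 < t := by linarith
    have h5 := hX t (r * η) ht1 hrη0.le (by linarith)
    have h6 := (abs_sub_le_iff.1 h5).1
    set F : ℝ := (ψ.q * t / (2 * Real.pi)) ^ (2 * (r * η)) with hF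
    set G : ℝ := ‖ψ.L ((1 / 2 + r * η : ℝ) + t * I)‖ ^ 2 with hG
    have hG0 : 0 ≤ G := by rw [hG]; positivity
    have hF0 : 0 ≤ F := by rw [hF]; positivity
    have h7 : F ≤ Real.exp (4 * A * R) := by
      have hbase : (ψ.q * t / (2 * Real.pi)) ≤ ψ.q * A * T := by
        rw [div_le_iff₀ (by positivity)]
        have h31 := Real.pi_gt_three
        have h30 : (ψ.q : ℝ) * t ≤ ψ.q * (3 * (A * T)) := by
          apply mul_le_mul_of_nonneg_left _ (by linarith)
          calc t ≤ r * (3 * T) := h2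
            _ ≤ A * (3 * T) := mul_le_mul_of_nonneg_right hr' (by positivity)
            _ = 3 * (A * T) := by ring
        have h32 : (0 : ℝ) ≤ ψ.q * A * T := by positivity
        nlinarith
      have hbig : 1 ≤ ψ.q * A * T := by
        have h33 : 1 ≤ ψ.q * A := by nlinarith
        nlinarith
      have hbig0 : 0 < ψ.q * A * T := by positivity
      calc F ≤ (ψ.q * A * T) ^ (2 * (r * η)) :=
            Real.rpow_le_rpow (by positivity) hbase (by positivity)
        _ ≤ (ψ.q * A * T) ^ (2 * (A * R / Real.log T)) :=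
            Real.rpow_le_rpow_of_exponent_le hbig (by linarith)
        _ = Real.exp (Real.log (ψ.q * A * T) * (2 * (A * R / Real.log T))) :=
            Real.rpow_def_of_pos hbig0 _
        _ ≤ Real.exp (4 * A * R) := by
            apply Real.exp_le_exp.2
            have h34 : Real.log (ψ.q * A * T) ≤ 2 * Real.log T := by
              rw [Real.log_mul (by positivity) hT0.ne']
              have := Real.log_le_log (by positivity) t2
              linarith
            calc Real.log (ψ.q * A * T) * (2 * (A * R / Real.log T)) ≤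
                  (2 * Real.log T) * (2 * (A * R / Real.log T)) :=
                  mul_le_mul_of_nonneg_right h34 (by positivity)
              _ = 4 * A * R := by
                  field_simp
                  norm_num
    have h8 : ‖ψ.L ((1 / 2 - r * η : ℝ) + t * I)‖ ^ 2 ≤
        (1 + CX) * Real.exp (4 * A * R) * G := by
      have h9 : CX / t ≤ CX := div_le_self hCX.le ht1
      have h10 : 0 ≤ F * G := mul_nonneg hF0 hG0
      have h11 : CX / t * (F * G) ≤ CX * (F * G) := mul_le_mul_of_nonneg_right h9 h10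
      have h12 : F * G ≤ Real.exp (4 * A * R) * G := mul_le_mul_of_nonneg_right h7 hG0
      calc ‖ψ.L ((1 / 2 - r * η : ℝ) + t * I)‖ ^ 2 ≤ F * G + CX / t * (F * G) := by linarith
        _ ≤ (1 + CX) * (F * G) := by linarith
        _ ≤ (1 + CX) * (Real.exp (4 * A * R) * G) :=
            mul_le_mul_of_nonneg_left h12 (by linarith)
        _ = _ := by ring
    have h13 : g t = ‖ψ.L ((1 / 2 - r * η : ℝ) + t * I)‖ ^ 2 *
      ‖Bf ψ b Y ((1 / 2 + r * η : ℝ) + t * I)‖ ^ 2 := by
      rw [hg]; simp only [norm_mul, mul_pow]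
    have h14 : f t = ‖ψ.L ((1 / 2 + r * η : ℝ) + t * I)‖ ^ 2 *
      ‖Bf ψ b Y ((1 / 2 + r * η : ℝ) + t * I)‖ ^ 2 := rfl
    rw [h13, h14, ← mul_assoc]
    exact mul_le_mul_of_nonneg_right h8 (by positivity)
  have hsub : ∫ t in (T / 2)..(3 * T), g (r * t) =
      r⁻¹ * ∫ t in (r * (T / 2))..(r * (3 * T)), g t := by
    rw [intervalIntegral.integral_comp_mul_left g hr0.ne', smul_eq_mul]
  have hgl : ∫ t in (T / 2)..(3 * T), ‖gl ψ b Y r η t‖ ^ 2 =
      ∫ t in (T / 2)..(3 * T), g (r * t) := by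
    congr 1
  rw [hgl, hsub]
  have h2 : ∫ t in (r * (T / 2))..(r * (3 * T)), g t ≤
      (1 + CX) * Real.exp (4 * A * R) * ∫ t in (r * (T / 2))..(r * (3 * T)), f t := by
    rw [← intervalIntegral.integral_const_mul]
    refine intervalIntegral.integral_mono_on (by nlinarith) (hgc.intervalIntegrable _ _)
      ((hfc.const_mul _).intervalIntegrable _ _) ?_
    intro t ht
    exact hgf t ht.1 ht.2
  have h3 : ∫ t in (r * (T / 2))..(r * (3 * T)), f t ≤
      ∫ t in (r * (T / 2))..(4 * (r * T)), f t :=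
    intervalIntegral.integral_mono_interval le_rfl (by nlinarith) (by nlinarith)
      (Eventually.of_forall hf0) (hfc.intervalIntegrable _ _)
  calc r⁻¹ * ∫ t in (r * (T / 2))..(r * (3 * T)), g t
      ≤ r⁻¹ * ((1 + CX) * Real.exp (4 * A * R) * (CU * (7 / 2 * (r * T)) * (2 + C))) := by
        apply mul_le_mul_of_nonneg_left _ (by positivity)
        refine h2.trans (mul_le_mul_of_nonneg_left (h3.trans hfint) (by positivity))
    _ = _ := by field_simp

end Pool.Agent.H39.RU
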